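import Pool.Agent.Helper60.GT.Defs

/-!
# Project GU: ridge degrees up to `exp (c log k / log log k)`, statements
-/

set_option autoImplicit false

open Finset

namespace Pool.Agent.Helper60.GT

/-- U1. The sampling lemma, version without local sparsity. -/
def StSampT : Prop :=
  ∀ (ι μ : Type) [DecidableEq ι] [DecidableEq μ] (F : Finset ι) (M : Finset μ)
    (N : ι → Finset μ) (A : ι → ι → Prop) [DecidableRel A] (q : ℝ) (x : ι → ℝ),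
    (∀ f g, A f g → A g f) → (∀ f, ¬ A f f) → 0 < q → q ≤ 1 →
    (∀ f ∈ F, 0 ≤ x f ∧ x f ≤ 1) → (∀ f ∈ F, N f ⊆ M) →
    (∀ M₀ ⊆ M, ∀ P ⊆ F, (∀ f ∈ P, ∀ g ∈ P, ¬ A f g) → (∀ f ∈ P, N f ⊆ M₀) →
      P.card ≤ M₀.card) →
    (∀ f ∈ F, ∑ g ∈ F.filter (fun g => A f g),
      x g * q ^ (N g).card / q ^ (N f ∩ N g).card ≤ 1 / 2) →
    1 / 2 * ∑ f ∈ F, x f * q ^ (N f).card ≤ q * M.card

/-- U2. The number of edges of type `j`. -/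
def StTypeJ : Prop :=
  ∀ (V : Type) [DecidableEq V] (k j t : ℕ) (H M F : Finset (Finset V)),
    2 ≤ k → 2 ≤ j → 1 ≤ t → (∀ e ∈ H, e.card = k) → MaxPack k H M → F ⊆ H \ M →
    (∀ f ∈ F, typ k M f = j) →
    (∀ S : Finset V, S.card = k - 1 → (H.filter (fun e => S ⊆ e)).card ≤ t) →
    (F.card : ℝ) ≤ 4 * ((1 + (j : ℝ) ^ 2) * ((k : ℝ) * t) ^ (1 - 1 / (j : ℝ))
      + j * ((t : ℝ) + k)) * M.card

/-- U3. The number of edges. -/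
def StCountT : Prop :=
  ∀ (V : Type) [DecidableEq V] (k j t : ℕ) (H M : Finset (Finset V)),
    2 ≤ k → 2 ≤ j → 1 ≤ t → t ≤ k → 4 * (j : ℝ) * Real.log j ≤ Real.log k →
    (∀ e ∈ H, e.card = k) → MaxPack k H M →
    (∀ S : Finset V, S.card = k - 1 → (H.filter (fun e => S ⊆ e)).card ≤ t) →
    (H.card : ℝ) ≤ 11 * k * ((j : ℝ) ^ 2 + t / j) * M.card

/-- U4. Dyadic greedy cover: from ridge degrees `2^I` down to ridge degrees `2^i₀`. -/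
def StDyad : Prop :=
  ∀ (V : Type) [DecidableEq V] (k i₀ I : ℕ) (A : ℕ → ℝ) (H : Finset (Finset V)),
    i₀ ≤ I →
    (∀ S : Finset V, S.card = k - 1 → (H.filter (fun e => S ⊆ e)).card ≤ 2 ^ I) →
    (∀ i : ℕ, i₀ ≤ i → i ≤ I → ∀ G ⊆ H,
      (∀ S : Finset V, S.card = k - 1 → (G.filter (fun e => S ⊆ e)).card ≤ 2 ^ i) →
      (G.card : ℝ) ≤ A i) →
    ∃ G ⊆ H, ∃ C : Finset (Finset V), (∀ R ∈ C, R.card = k - 1) ∧
      (∀ e ∈ H, e ∉ G → ∃ R ∈ C, R ⊆ e) ∧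
      (∀ S : Finset V, S.card = k - 1 → (G.filter (fun e => S ⊆ e)).card ≤ 2 ^ i₀) ∧
      (C.card : ℝ) ≤ ∑ i ∈ Ioc i₀ I, 2 * A i / 2 ^ i

/-- U5. The rate: cost of all scales above `2^i₀` is at most `ε k ν`. -/
def StRate : Prop :=
  ∀ ε : ℝ, 0 < ε → ∃ i₀ : ℕ, ∃ c : ℝ, 0 < c ∧ ∃ k₀ : ℕ, ∀ k : ℕ, k₀ ≤ k → ∀ D : ℕ,
    (D : ℝ) ≤ Real.exp (c * Real.log k / Real.log (Real.log k)) →
    ∀ (V : Type) [DecidableEq V] (H M : Finset (Finset V)),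
    (∀ e ∈ H, e.card = k) → MaxPack k H M →
    (∀ S : Finset V, S.card = k - 1 → (H.filter (fun e => S ⊆ e)).card ≤ D) →
    ∃ G ⊆ H, ∃ C : Finset (Finset V), (∀ R ∈ C, R.card = k - 1) ∧
      (∀ e ∈ H, e ∉ G → ∃ R ∈ C, R ⊆ e) ∧
      (∀ S : Finset V, S.card = k - 1 → (G.filter (fun e => S ⊆ e)).card ≤ 2 ^ i₀) ∧
      (C.card : ℝ) ≤ ε * k * M.card

end Pool.Agent.Helper60.GT
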