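import Pool.Agent.Helper60.VT.Spec

/-!
# Module U4: dyadic greedy cover

Downward induction on `i` from `I` to `i₀` (or induction on `I - i₀`): `G_I = H`; apply
`hG : StGreedy` with `M = ∅`, `δ = 1`, `T = 2^i` to `G_{i+1}`: no set is under `∅`,
`load k ∅ G 1 R = #{e ∈ G : R ⊆ e}`, `wt k ∅ G 1 = |G|`; so `G_i ⊆ G_{i+1}` has ridge degrees
`≤ 2^i` and `|C_i| ≤ |G_{i+1}|/2^i ≤ 2 A(i+1)/2^(i+1)`. `C = ⋃ C_i`.
-/

set_option autoImplicit false

open Finset

namespace Pool.Agent.Helper60.GT

theorem dyad_load {V : Type} [DecidableEq V] (k : ℕ) (G : Finset (Finset V)) (R : Finset V) :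
    load k ∅ G 1 R = ((G.filter (fun e => R ⊆ e)).card : ℝ) := by
  unfold load
  simp

theorem dyad_wt {V : Type} [DecidableEq V] (k : ℕ) (G : Finset (Finset V)) :
    wt k ∅ G 1 = (G.card : ℝ) := by
  unfold wt
  simp

theorem dyad_not_under {V : Type} (R : Finset V) : ¬ Under (∅ : Finset (Finset V)) R := by
  rintro ⟨m, hm, _⟩
  exact absurd hm (notMem_empty m)

theorem dyad (hG : StGreedy) : StDyad := by
  intro V _ k i₀ I A H hI hH hA
  have key : ∀ m i : ℕ, i₀ ≤ i → i + m = I →
      ∃ G ⊆ H, ∃ C : Finset (Finset V), (∀ R ∈ C, R.card = k - 1) ∧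
      (∀ e ∈ H, e ∉ G → ∃ R ∈ C, R ⊆ e) ∧
      (∀ S : Finset V, S.card = k - 1 → (G.filter (fun e => S ⊆ e)).card ≤ 2 ^ i) ∧
      (C.card : ℝ) ≤ ∑ j ∈ Ioc i I, 2 * A j / 2 ^ j := by
    intro m
    induction m with
    | zero =>
      intro i _ hi
      have hiI : i = I := by omega
      subst hiI
      refine ⟨H, subset_rfl, ∅, by simp, fun e he he' => absurd he he', hH, ?_⟩
      simp
    | succ m ih =>
      intro i hi hiI
      obtain ⟨G', hG', C', hC1, hC2, hC3, hC4⟩ := ih (i + 1) (by omega) (by omega)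
      obtain ⟨G, hGG, C₁, h1, h2, h3, h4⟩ := hG V k ∅ G' 1 (2 ^ i) zero_le_one (by positivity)
      refine ⟨G, hGG.trans hG', C' ∪ C₁, ?_, ?_, ?_, ?_⟩
      · intro R hR
        rcases mem_union.mp hR with h | h
        · exact hC1 R h
        · exact h1 R h
      · intro e he heG
        by_cases heG' : e ∈ G'
        · obtain ⟨R, hR, hRe⟩ := h3 e heG' heG
          exact ⟨R, mem_union_right _ hR, hRe⟩
        · obtain ⟨R, hR, hRe⟩ := hC2 e he heG'
          exact ⟨R, mem_union_left _ hR, hRe⟩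
      · intro S hS
        have h5 := h2 S hS (dyad_not_under S)
        rw [dyad_load] at h5
        exact_mod_cast h5
      · have h5 : (G'.card : ℝ) ≤ A (i + 1) := hA (i + 1) (by omega) (by omega) G' hG' hC3
        rw [dyad_wt] at h4
        have h6 : (C₁.card : ℝ) ≤ 2 * A (i + 1) / 2 ^ (i + 1) := by
          have h7 : 2 * A (i + 1) / 2 ^ (i + 1) = A (i + 1) / 2 ^ i := by
            rw [pow_succ]
            field_simp
          rw [h7, le_div_iff₀ (by positivity)]
          exact h4.trans h5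
        have h8 : ((C' ∪ C₁).card : ℝ) ≤ C'.card + C₁.card := by
          exact_mod_cast card_union_le _ _
        rw [← sum_Ioc_consecutive (fun j => 2 * A j / 2 ^ j) (Nat.le_succ i)
          (by omega : i + 1 ≤ I)]
        have h9 : ∑ j ∈ Ioc i i.succ, 2 * A j / 2 ^ j = 2 * A (i + 1) / 2 ^ (i + 1) := by
          rw [Nat.Ioc_succ_singleton, sum_singleton]
        rw [h9]
        linarith
  exact key (I - i₀) i₀ le_rfl (by omega)

end Pool.Agent.Helper60.GT
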