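import Pool.Agent.Helper60.VT.Spec

/-!
# Module U1: the sampling lemma, version without local sparsity

Copy the Bernoulli library of `Pool/Agent/Helper60/GT/Samp.lean` (its lemmas are private; rename).
For each outcome `(M₀, Y)` let `H₀ = {f ∈ Y : N f ⊆ M₀}` and let `P` be the set of `f ∈ H₀`
without `A`-neighbour in `H₀`: `|P| ≥ |H₀| - e`, `e` the number of ordered adjacent pairs of `H₀`.
The exchange hypothesis gives `|H₀| - e ≤ |M₀|`. Expectations: `E|H₀| = ∑ f, x f q^|N f|`,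
`E e = ∑ f, x f q^|N f| * (degree sum of f) ≤ 1/2 * ∑ f, x f q^|N f|`, `E|M₀| = q |M|`.
-/

set_option autoImplicit false

open Finset

namespace Pool.Agent.Helper60.GT

/-- weight of the outcome `Y` -/
private noncomputable def bw {α : Type} [DecidableEq α] (X : Finset α) (p : α → ℝ)
    (Y : Finset α) : ℝ := (∏ i ∈ Y, p i) * ∏ i ∈ X \ Y, (1 - p i)

private theorem bw_nonneg {α : Type} [DecidableEq α] (X : Finset α) (p : α → ℝ)
    (hp : ∀ i ∈ X, 0 ≤ p i ∧ p i ≤ 1) {Y : Finset α} (hY : Y ⊆ X) : 0 ≤ bw X p Y := by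
  unfold bw
  refine mul_nonneg (prod_nonneg fun i hi => (hp i (hY hi)).1) (prod_nonneg fun i hi => ?_)
  have := (hp i (mem_sdiff.1 hi).1).2
  linarith

private theorem bw_incl {α : Type} [DecidableEq α] (X : Finset α) (p : α → ℝ)
    {S : Finset α} (hS : S ⊆ X) :
    ∑ Y ∈ X.powerset, bw X p Y * (if S ⊆ Y then (1 : ℝ) else 0) = ∏ i ∈ S, p i := by
  have h1 := prod_add p (fun i => if i ∈ S then (0 : ℝ) else 1 - p i) X
  have h2 : ∏ i ∈ X, (p i + (if i ∈ S then (0 : ℝ) else 1 - p i)) = ∏ i ∈ S, p i := by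
    rw [← prod_subset hS]
    · refine prod_congr rfl fun i hi => ?_
      rw [if_pos hi, add_zero]
    · intro i _ hi
      rw [if_neg hi]
      ring
  rw [← h2, h1]
  refine sum_congr rfl fun Y hY => ?_
  unfold bw
  by_cases h : S ⊆ Y
  · rw [if_pos h, mul_one]
    congr 1
    refine prod_congr rfl fun i hi => ?_
    rw [if_neg fun h3 => (mem_sdiff.1 hi).2 (h h3)]
  · rw [if_neg h, mul_zero]
    obtain ⟨i, hi, hiY⟩ := not_subset.1 h
    have h4 : ∏ i ∈ X \ Y, (if i ∈ S then (0 : ℝ) else 1 - p i) = 0 :=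
      prod_eq_zero (mem_sdiff.2 ⟨hS hi, hiY⟩) (if_pos hi)
    rw [h4, mul_zero]

/-- expectation -/
private noncomputable def ex {ι μ : Type} [DecidableEq ι] [DecidableEq μ] (F : Finset ι)
    (M : Finset μ) (q : ℝ) (x : ι → ℝ) (φ : Finset μ → Finset ι → ℝ) : ℝ :=
  ∑ M₀ ∈ M.powerset, ∑ Y ∈ F.powerset, bw M (fun _ => q) M₀ * bw F x Y * φ M₀ Y

section

variable {ι μ : Type} [DecidableEq ι] [DecidableEq μ] {F : Finset ι} {M : Finset μ} {q : ℝ}
  {x : ι → ℝ}

private theorem ex_incl {B : Finset μ} {S : Finset ι} (hB : B ⊆ M) (hS : S ⊆ F) :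
    ex F M q x (fun M₀ Y => (if B ⊆ M₀ then (1 : ℝ) else 0) * (if S ⊆ Y then (1 : ℝ) else 0)) =
      q ^ B.card * ∏ i ∈ S, x i := by
  unfold ex
  have h1 := bw_incl M (fun _ => q) hB
  rw [prod_const] at h1
  rw [← h1, ← bw_incl F x hS, sum_mul_sum]
  refine sum_congr rfl fun M₀ _ => sum_congr rfl fun Y _ => ?_
  ring

private theorem ex_sum {σ : Type} (T : Finset σ) (φ : σ → Finset μ → Finset ι → ℝ) :
    ex F M q x (fun M₀ Y => ∑ t ∈ T, φ t M₀ Y) = ∑ t ∈ T, ex F M q x (φ t) := by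
  unfold ex
  simp_rw [mul_sum]
  have h1 : ∀ M₀ ∈ M.powerset, ∑ Y ∈ F.powerset, ∑ t ∈ T,
      bw M (fun _ => q) M₀ * bw F x Y * φ t M₀ Y = ∑ t ∈ T, ∑ Y ∈ F.powerset,
      bw M (fun _ => q) M₀ * bw F x Y * φ t M₀ Y := fun M₀ _ => sum_comm
  rw [sum_congr rfl h1, sum_comm]

private theorem ex_mono (hq : 0 < q) (hq1 : q ≤ 1) (hx : ∀ f ∈ F, 0 ≤ x f ∧ x f ≤ 1)
    {φ ψ : Finset μ → Finset ι → ℝ} (h : ∀ M₀ ⊆ M, ∀ Y ⊆ F, φ M₀ Y ≤ ψ M₀ Y) :
    ex F M q x φ ≤ ex F M q x ψ := by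
  unfold ex
  refine sum_le_sum fun M₀ hM => sum_le_sum fun Y hY => ?_
  rw [mem_powerset] at hM hY
  exact mul_le_mul_of_nonneg_left (h M₀ hM Y hY)
    (mul_nonneg (bw_nonneg M _ (fun _ _ => ⟨hq.le, hq1⟩) hM) (bw_nonneg F x hx hY))

private theorem ex_sub (φ₁ φ₂ : Finset μ → Finset ι → ℝ) :
    ex F M q x (fun M₀ Y => φ₁ M₀ Y - φ₂ M₀ Y) = ex F M q x φ₁ - ex F M q x φ₂ := by
  unfold ex
  rw [← sum_sub_distrib]
  refine sum_congr rfl fun M₀ _ => ?_
  rw [← sum_sub_distrib]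
  refine sum_congr rfl fun Y _ => ?_
  ring

/-- expectation of a number of configurations -/
private theorem ex_count {σ : Type} [DecidableEq σ] (T : Finset σ) (B : σ → Finset μ)
    (S : σ → Finset ι) (hB : ∀ t ∈ T, B t ⊆ M) (hS : ∀ t ∈ T, S t ⊆ F)
    (Z : Finset μ → Finset ι → Finset σ)
    (hZ : ∀ M₀ ⊆ M, ∀ Y ⊆ F, Z M₀ Y = T.filter (fun t => B t ⊆ M₀ ∧ S t ⊆ Y)) :
    ex F M q x (fun M₀ Y => ((Z M₀ Y).card : ℝ)) =
      ∑ t ∈ T, q ^ (B t).card * ∏ i ∈ S t, x i := by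
  have h1 : ex F M q x (fun M₀ Y => ((Z M₀ Y).card : ℝ)) =
      ex F M q x (fun M₀ Y => ∑ t ∈ T,
        (if B t ⊆ M₀ then (1 : ℝ) else 0) * (if S t ⊆ Y then (1 : ℝ) else 0)) := by
    unfold ex
    refine sum_congr rfl fun M₀ hM => sum_congr rfl fun Y hY => ?_
    rw [mem_powerset] at hM hY
    congr 1
    change ((Z M₀ Y).card : ℝ) = ∑ t ∈ T,
        (if B t ⊆ M₀ then (1 : ℝ) else 0) * (if S t ⊆ Y then (1 : ℝ) else 0)
    rw [hZ M₀ hM Y hY, ← sum_boole]
    refine sum_congr rfl fun t _ => ?_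
    by_cases h2 : B t ⊆ M₀ <;> by_cases h3 : S t ⊆ Y <;> simp [h2, h3]
  rw [h1, ex_sum]
  exact sum_congr rfl fun t ht => ex_incl (hB t ht) (hS t ht)

end

private theorem pow_union {μ : Type} [DecidableEq μ] (q : ℝ) (hq : 0 < q) (B C : Finset μ) :
    q ^ (B ∪ C).card = q ^ B.card * (q ^ C.card / q ^ (B ∩ C).card) := by
  have h1 := card_union_add_card_inter B C
  have h2 : q ^ (B ∪ C).card * q ^ (B ∩ C).card = q ^ B.card * q ^ C.card := by
    rw [← pow_add, ← pow_add, h1]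
  have h3 : (0 : ℝ) < q ^ (B ∩ C).card := by positivity
  rw [← mul_div_assoc, eq_div_iff h3.ne', h2]

theorem sampT : StSampT := by
  intro ι μ _ _ F M N A _ q x hsym hirr hq hq1 hx hN hex hdeg
  -- the configurations
  let Z1 : Finset μ → Finset ι → Finset ι := fun M₀ Y => Y.filter (fun f => N f ⊆ M₀)
  let Z2 : Finset μ → Finset ι → Finset (ι × ι) := fun M₀ Y =>
    ((Z1 M₀ Y) ×ˢ (Z1 M₀ Y)).filter (fun p => A p.1 p.2)
  have key : ∀ M₀ ⊆ M, ∀ Y ⊆ F,
      ((Z1 M₀ Y).card : ℝ) - ((Z2 M₀ Y).card : ℝ) ≤ (M₀.card : ℝ) := by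
    intro M₀ hM₀ Y hY
    set P : Finset ι := (Z1 M₀ Y).filter (fun f => ∀ g ∈ Z1 M₀ Y, ¬ A f g) with hP
    have h1 : P.card ≤ M₀.card := by
      refine hex M₀ hM₀ P (fun f hf => hY ?_) (fun f hf g hg => ?_) (fun f hf => ?_)
      · exact (mem_filter.1 (mem_filter.1 hf).1).1
      · exact (mem_filter.1 hf).2 g (mem_filter.1 hg).1
      · exact (mem_filter.1 (mem_filter.1 hf).1).2
    have h2 : ((Z1 M₀ Y).filter (fun f => ¬ ∀ g ∈ Z1 M₀ Y, ¬ A f g)).card ≤
        (Z2 M₀ Y).card := by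
      have h3 : (Z1 M₀ Y).filter (fun f => ¬ ∀ g ∈ Z1 M₀ Y, ¬ A f g) ⊆
          (Z2 M₀ Y).image Prod.fst := by
        intro f hf
        rw [mem_filter] at hf
        obtain ⟨hf1, hf2⟩ := hf
        push Not at hf2
        obtain ⟨g, hg, hfg⟩ := hf2
        rw [mem_image]
        exact ⟨(f, g), mem_filter.2 ⟨mem_product.2 ⟨hf1, hg⟩, hfg⟩, rfl⟩
      exact (card_le_card h3).trans card_image_le
    have h3 : P.card + ((Z1 M₀ Y).filter (fun f => ¬ ∀ g ∈ Z1 M₀ Y, ¬ A f g)).card =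
        (Z1 M₀ Y).card := card_filter_add_card_filter_not _
    have h4 : (Z1 M₀ Y).card ≤ M₀.card + (Z2 M₀ Y).card := by omega
    have h5 : ((Z1 M₀ Y).card : ℝ) ≤ (M₀.card : ℝ) + ((Z2 M₀ Y).card : ℝ) := by
      exact_mod_cast h4
    linarith
  have hE := ex_mono (x := x) hq hq1 hx key
  rw [ex_sub] at hE
  -- the expectations
  have e0 : ex F M q x (fun M₀ _ => (M₀.card : ℝ)) = q * M.card := by
    rw [ex_count (q := q) (x := x) M (fun m => {m}) (fun _ => ∅)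
      (fun m hm => singleton_subset_iff.2 hm) (fun _ _ => empty_subset _)
      (fun M₀ _ => M₀) ?_]
    · simp [mul_comm]
    · intro M₀ hM₀ Y _
      ext m
      simp only [mem_filter, singleton_subset_iff, empty_subset, and_true]
      exact ⟨fun h => ⟨hM₀ h, h⟩, fun h => h.2⟩
  have e1 : ex F M q x (fun M₀ Y => ((Z1 M₀ Y).card : ℝ)) = ∑ f ∈ F, x f * q ^ (N f).card := by
    rw [ex_count (q := q) (x := x) F N (fun f => {f}) hN
      (fun f hf => singleton_subset_iff.2 hf) Z1 ?_]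
    · refine sum_congr rfl fun f _ => ?_
      rw [prod_singleton, mul_comm]
    · intro M₀ _ Y hY
      ext f
      simp only [Z1, mem_filter, singleton_subset_iff]
      exact ⟨fun h => ⟨hY h.1, h.2, h.1⟩, fun h => ⟨h.2.2, h.2.1⟩⟩
  have e2 : ex F M q x (fun M₀ Y => ((Z2 M₀ Y).card : ℝ)) =
      ∑ f ∈ F, ∑ g ∈ F.filter (fun g => A f g), x f * x g * q ^ (N f ∪ N g).card := by
    rw [ex_count (q := q) (x := x) ((F ×ˢ F).filter (fun p => A p.1 p.2))
      (fun p => N p.1 ∪ N p.2) (fun p => {p.1, p.2}) ?_ ?_ Z2 ?_]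
    · rw [sum_filter, sum_product]
      refine sum_congr rfl fun f _ => ?_
      rw [sum_filter]
      refine sum_congr rfl fun g _ => ?_
      by_cases h : A f g
      · have hne : f ≠ g := fun h1 => hirr g (h1 ▸ h)
        rw [if_pos h, if_pos h, prod_pair hne]
        ring
      · rw [if_neg h, if_neg h]
    · intro p hp
      rw [mem_filter, mem_product] at hp
      exact union_subset (hN _ hp.1.1) (hN _ hp.1.2)
    · intro p hp
      rw [mem_filter, mem_product] at hp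
      exact insert_subset hp.1.1 (singleton_subset_iff.2 hp.1.2)
    · intro M₀ _ Y hY
      ext p
      simp only [Z2, Z1, mem_filter, mem_product, union_subset_iff, insert_subset_iff,
        singleton_subset_iff]
      constructor
      · rintro ⟨⟨⟨h1, h2⟩, h3, h4⟩, h5⟩
        exact ⟨⟨⟨hY h1, hY h3⟩, h5⟩, ⟨h2, h4⟩, h1, h3⟩
      · rintro ⟨⟨_, h5⟩, ⟨h2, h4⟩, h1, h3⟩
        exact ⟨⟨⟨h1, h2⟩, h3, h4⟩, h5⟩
  -- the estimates
  set n : ℝ := ∑ f ∈ F, x f * q ^ (N f).card with hn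
  have b2 : ∑ f ∈ F, ∑ g ∈ F.filter (fun g => A f g), x f * x g * q ^ (N f ∪ N g).card ≤
      1 / 2 * n := by
    rw [hn, mul_sum]
    refine sum_le_sum fun f hf => ?_
    have h1 : ∑ g ∈ F.filter (fun g => A f g), x f * x g * q ^ (N f ∪ N g).card =
        x f * q ^ (N f).card * ∑ g ∈ F.filter (fun g => A f g),
          x g * q ^ (N g).card / q ^ (N f ∩ N g).card := by
      rw [mul_sum]
      refine sum_congr rfl fun g _ => ?_
      rw [pow_union q hq (N f) (N g)]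
      ring
    rw [h1]
    have h2 : 0 ≤ x f * q ^ (N f).card := mul_nonneg (hx f hf).1 (by positivity)
    calc x f * q ^ (N f).card * ∑ g ∈ F.filter (fun g => A f g),
          x g * q ^ (N g).card / q ^ (N f ∩ N g).card
        ≤ x f * q ^ (N f).card * (1 / 2) := mul_le_mul_of_nonneg_left (hdeg f hf) h2
      _ = 1 / 2 * (x f * q ^ (N f).card) := by ring
  rw [e0, e1, e2] at hE
  linarith

end Pool.Agent.Helper60.GT
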