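import Mathlib
import Pool.Agent.Helper37.FracTuza.Defs
import Pool.Agent.Helper5.FracCover.Defs

/-!
# Packings and covers by `(k-1)`-sets: the matching cover, degrees and codegrees
-/

set_option autoImplicit false

open Finset

namespace Pool.Agent.Helper60.VT

open Pool.Agent.Helper37.FracTuza Pool.Agent.Helper5.FracCover

variable {n k : ℕ}

/-- conflict -/
def Con (k : ℕ) (e f : Finset (Fin n)) : Prop := e ≠ f ∧ k - 1 ≤ (e ∩ f).card

theorem Con.symm {e f : Finset (Fin n)} (h : Con k e f) : Con k f e :=
  ⟨h.1.symm, by rw [inter_comm]; exact h.2⟩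

theorem con_card {e f : Finset (Fin n)} (he : e.card = k) (hf : f.card = k) (h : Con k e f) :
    (e ∩ f).card = k - 1 := by
  have h1 : (e ∩ f).card ≤ k := he ▸ card_le_card inter_subset_left
  have h2 : (e ∩ f).card ≠ k := by
    intro h3
    have h4 : e ∩ f = e := eq_of_subset_of_card_le inter_subset_left (by omega)
    have h5 : e ∩ f = f := eq_of_subset_of_card_le inter_subset_right (by omega)
    exact h.1 (h4.symm.trans h5)
  have := h.2
  omega

/-- cover by matched pairs -/
theorem exists_cover_half (k : ℕ) : ∀ (N : ℕ) (H : Finset (Finset (Fin n))), H.card = N →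
    (∀ e ∈ H, e.card = k) →
    ∃ C P : Finset (Finset (Fin n)), IsCover k H C ∧ IsPacking k H P ∧
      2 * C.card ≤ H.card + P.card := by
  intro N
  induction N using Nat.strong_induction_on with
  | _ N ih =>
    intro H hN hH
    by_cases hex : ∃ e ∈ H, ∃ f ∈ H, Con k e f
    · obtain ⟨e, he, f, hf, hef⟩ := hex
      have hsub : (H.erase e).erase f ⊆ H := (erase_subset _ _).trans (erase_subset _ _)
      have hfe : f ∈ H.erase e := mem_erase.2 ⟨hef.1.symm, hf⟩
      have hc : ((H.erase e).erase f).card = N - 2 := by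
        rw [card_erase_of_mem hfe, card_erase_of_mem he, hN]; omega
      have hNp : 2 ≤ N := by
        have h1 := card_pos.2 ⟨f, hfe⟩
        rw [card_erase_of_mem he] at h1
        omega
      obtain ⟨C, P, hC, hP, hle⟩ := ih (N - 2) (by omega) _ hc (fun g hg => hH g (hsub hg))
      refine ⟨insert (e ∩ f) C, P, ⟨?_, ?_⟩, ⟨hP.1.trans hsub, hP.2⟩, ?_⟩
      · intro S hS
        rcases mem_insert.1 hS with rfl | hS
        · exact con_card (hH e he) (hH f hf) hef
        · exact hC.1 S hS
      · intro g hg
        by_cases h1 : g = e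
        · exact ⟨e ∩ f, mem_insert_self _ _, h1 ▸ inter_subset_left⟩
        · by_cases h2 : g = f
          · exact ⟨e ∩ f, mem_insert_self _ _, h2 ▸ inter_subset_right⟩
          · obtain ⟨S, hS, hSg⟩ := hC.2 g (mem_erase.2 ⟨h2, mem_erase.2 ⟨h1, hg⟩⟩)
            exact ⟨S, mem_insert_of_mem hS, hSg⟩
      · have := card_insert_le (e ∩ f) C
        rw [hc] at hle
        omega
    · push Not at hex
      have hsel : ∀ e ∈ H, ∃ S ⊆ e, S.card = k - 1 := fun e he =>
        exists_subset_card_eq (by rw [hH e he]; omega)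
      choose! R hR1 hR2 using hsel
      refine ⟨H.image R, H, ⟨?_, ?_⟩, ⟨Subset.refl _, ?_⟩, ?_⟩
      · intro S hS
        obtain ⟨e, he, rfl⟩ := mem_image.1 hS
        exact hR2 e he
      · intro e he
        exact ⟨R e, mem_image_of_mem _ he, hR1 e he⟩
      · intro e he f hf hef
        by_contra hcon
        exact hex e he f hf ⟨hef, not_lt.1 hcon⟩
      · have : (H.image R).card ≤ H.card := card_image_le
        omega

/-- common neighbours of two adjacent sets -/
theorem common {e f g : Finset (Fin n)} (he : e.card = k) (hf : f.card = k) (hg : g.card = k)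
    (h1 : Con k e f) (h2 : Con k e g) (h3 : Con k f g) : e ∩ f ⊆ g ∨ g ⊆ e ∪ f := by
  by_cases hs : e ∩ f ⊆ g
  · exact Or.inl hs
  · right
    -- some `z ∈ e ∩ f` is not in `g`; then `g ∩ e = e - z`, `g ∩ f = f - z`
    obtain ⟨z, hz, hzg⟩ := not_subset.1 hs
    have hze := (mem_inter.1 hz).1
    have hzf := (mem_inter.1 hz).2
    have c1 := con_card he hg h2
    have c2 := con_card hf hg h3
    have e1 : e ∩ g = e.erase z := by
      apply eq_of_subset_of_card_le
      · intro x hx
        exact mem_erase.2 ⟨fun h => hzg (h ▸ (mem_inter.1 hx).2), (mem_inter.1 hx).1⟩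
      · rw [card_erase_of_mem hze, he, c1]
    have e2 : f ∩ g = f.erase z := by
      apply eq_of_subset_of_card_le
      · intro x hx
        exact mem_erase.2 ⟨fun h => hzg (h ▸ (mem_inter.1 hx).2), (mem_inter.1 hx).1⟩
      · rw [card_erase_of_mem hzf, hf, c2]
    -- `g ⊇ (e ∪ f) - z`, of size `k`
    have hsub : (e ∪ f).erase z ⊆ g := by
      intro x hx
      obtain ⟨hxz, hx⟩ := mem_erase.1 hx
      rcases mem_union.1 hx with hx | hx
      · exact (mem_inter.1 (e1 ▸ mem_erase.2 ⟨hxz, hx⟩ : x ∈ e ∩ g)).2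
      · exact (mem_inter.1 (e2 ▸ mem_erase.2 ⟨hxz, hx⟩ : x ∈ f ∩ g)).2
    have hcard : k ≤ ((e ∪ f).erase z).card := by
      rw [card_erase_of_mem (mem_union_left _ hze)]
      have h4 := card_union_add_card_inter e f
      rw [he, hf, con_card he hf h1] at h4
      have : 1 ≤ k := by
        rw [← he]; exact card_pos.2 ⟨z, hze⟩
      omega
    have heq : (e ∪ f).erase z = g := eq_of_subset_of_card_le hsub (by rw [hg]; exact hcard)
    rw [← heq]
    exact erase_subset _ _

end Pool.Agent.Helper60.VT
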