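import Pool.Agent.Helper60.VT.Spec
import Pool.Agent.Helper60.GT.Geo

/-!
# Module U3: the number of edges

Split `H = M ∪ {typ = 1} ∪ ⋃_{2 ≤ i < j} {typ = i} ∪ {typ ≥ j}` (`typ_pos`).
* `typ = 1`: `nbr k M f = {m}`; by `hs : StSingle` for each `m` at most `max t (k+1) ≤ k + 1` of
  them (all contain a ridge, or all are `k`-subsets of a `(k+1)`-set), so `≤ (k+1)|M|`.
* `typ = i`: `hT` gives `4((1+i^2)(kt)^(1-1/i) + i(t+k))|M| ≤ 4((1+i^2)(kt)^(1-1/j) + 2 i k)|M|`;
  the sum over `2 ≤ i < j` is at most `4 (j^3 (kt)^(1-1/j) + k j^2)|M|`, and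
  `(kt)^(1/j) ≥ k^(1/j) ≥ j^4` by the hypothesis `4 j log j ≤ log k`, so this is
  `≤ (4 k t/j + 4 k j^2)|M|`.
* `typ ≥ j`: `j * #{typ ≥ j} ≤ ∑ f, typ f = ∑ S ∈ shadow k M, #{f ∈ H \ M : S ⊆ f} ≤ k |M| t`
  (`card_tr`, `card_shadow`, double counting).
Total `≤ (1 + (k+1) + 4kt/j + 4kj^2 + kt/j)|M| ≤ 11 k (j^2 + t/j)|M|`.
-/

set_option autoImplicit false

open Finset

namespace Pool.Agent.Helper60.GT

/-- real inequality: `(kt)^(1-1/i) ≤ kt/j^4` -/
private theorem countT_pow (k j t i : ℕ) (hk : 2 ≤ k) (hj : 2 ≤ j) (ht : 1 ≤ t) (hi : 2 ≤ i)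
    (hij : i < j) (hlog : 4 * (j : ℝ) * Real.log j ≤ Real.log k) :
    ((k : ℝ) * t) ^ (1 - 1 / (i : ℝ)) ≤ (k : ℝ) * t / (j : ℝ) ^ 4 := by
  have hk' : (2 : ℝ) ≤ k := by exact_mod_cast hk
  have hj' : (2 : ℝ) ≤ j := by exact_mod_cast hj
  have ht' : (1 : ℝ) ≤ t := by exact_mod_cast ht
  have hi' : (2 : ℝ) ≤ i := by exact_mod_cast hi
  have hij' : (i : ℝ) < j := by exact_mod_cast hij
  have hkt : (1 : ℝ) ≤ (k : ℝ) * t := by nlinarith
  have hkt0 : (0 : ℝ) < (k : ℝ) * t := by linarith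
  have h1 : ((k : ℝ) * t) ^ (1 - 1 / (i : ℝ)) ≤ ((k : ℝ) * t) ^ (1 - 1 / (j : ℝ)) := by
    apply Real.rpow_le_rpow_of_exponent_le hkt
    have : 1 / (j : ℝ) ≤ 1 / (i : ℝ) := one_div_le_one_div_of_le (by linarith) hij'.le
    linarith
  have h2 : ((k : ℝ) * t) ^ (1 - 1 / (j : ℝ)) = (k : ℝ) * t / ((k : ℝ) * t) ^ (1 / (j : ℝ)) := by
    rw [Real.rpow_sub hkt0, Real.rpow_one]
  have h3 : (j : ℝ) ^ 4 ≤ ((k : ℝ) * t) ^ (1 / (j : ℝ)) := by
    have h4 : Real.log ((j : ℝ) ^ 4) ≤ Real.log (((k : ℝ) * t) ^ (1 / (j : ℝ))) := by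
      rw [Real.log_rpow hkt0, Real.log_pow]
      have h5 : Real.log k ≤ Real.log ((k : ℝ) * t) :=
        Real.log_le_log (by linarith) (by nlinarith)
      rw [one_div, inv_mul_eq_div, le_div_iff₀ (by linarith)]
      push_cast
      nlinarith
    exact (Real.log_le_log_iff (by positivity) (by positivity)).1 h4
  calc ((k : ℝ) * t) ^ (1 - 1 / (i : ℝ)) ≤ _ := h1
    _ = _ := h2
    _ ≤ _ := div_le_div_of_nonneg_left hkt0.le (by positivity) h3

theorem countT (hT : StTypeJ) (hs : StSingle) : StCountT := by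

  intro V _ k j t H M hk hj ht htk hlog hH hMax hdeg
  have hM : ∀ m ∈ M, m.card = k := fun m hm => hH m (hMax.1.1 hm)
  have hk' : (2 : ℝ) ≤ k := by exact_mod_cast hk
  have hj' : (2 : ℝ) ≤ j := by exact_mod_cast hj
  have ht' : (1 : ℝ) ≤ t := by exact_mod_cast ht
  have htk' : (t : ℝ) ≤ k := by exact_mod_cast htk
  -- type one
  have h1 : ((H \ M).filter (fun f => typ k M f = 1)).card ≤ (k + 1) * M.card := by
    have hsub : (H \ M).filter (fun f => typ k M f = 1) ⊆
        M.biUnion (fun m => (H \ M).filter (fun f => nbr k M f = {m})) := by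
      intro f hf
      rw [mem_filter, typ, card_eq_one] at hf
      obtain ⟨hf1, m, hm⟩ := hf
      rw [mem_biUnion]
      have h2 : m ∈ nbr k M f := by rw [hm]; exact mem_singleton_self _
      exact ⟨m, (mem_filter.1 h2).1, mem_filter.2 ⟨hf1, hm⟩⟩
    calc _ ≤ _ := card_le_card hsub
      _ ≤ ∑ m ∈ M, ((H \ M).filter (fun f => nbr k M f = {m})).card := card_biUnion_le
      _ ≤ ∑ _m ∈ M, (k + 1) := by
        refine sum_le_sum (fun m hm => ?_)
        rcases hs V k H M hk hH hMax m hm with ⟨S, -, hSc, hS⟩ | ⟨Q, -, hQc, hQ⟩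
        · have h2 : (H \ M).filter (fun f => nbr k M f = {m}) ⊆ H.filter (fun e => S ⊆ e) := by
            intro f hf
            rw [mem_filter] at hf ⊢
            exact ⟨(mem_sdiff.1 hf.1).1, hS f hf.1 hf.2⟩
          have h3 := card_le_card h2
          have h4 := hdeg S hSc
          omega
        · have h2 : (H \ M).filter (fun f => nbr k M f = {m}) ⊆ Q.powersetCard k := by
            intro f hf
            rw [mem_filter] at hf
            rw [mem_powersetCard]
            exact ⟨hQ f hf.1 hf.2, hH f (mem_sdiff.1 hf.1).1⟩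
          have h3 := card_le_card h2
          rw [card_powersetCard, hQc, Nat.choose_succ_self_right] at h3
          exact h3
      _ = (k + 1) * M.card := by rw [sum_const, smul_eq_mul, mul_comm]
  -- types between two and j
  have h2 : ∀ i, 2 ≤ i → i < j → (((H \ M).filter (fun f => typ k M f = i)).card : ℝ) ≤
      4 * ((k : ℝ) * t / (j : ℝ) ^ 2 + 2 * j * k) * M.card := by
    intro i hi hij
    have hi' : (2 : ℝ) ≤ i := by exact_mod_cast hi
    have hij' : (i : ℝ) + 1 ≤ j := by exact_mod_cast hij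
    have g1 := hT V k i t H M ((H \ M).filter (fun f => typ k M f = i)) hk hi ht hH hMax
      (filter_subset _ _) (fun f hf => (mem_filter.1 hf).2) hdeg
    refine g1.trans ?_
    have g2 := countT_pow k j t i hk hj ht hi hij hlog
    have g3 : (1 + (i : ℝ) ^ 2) * ((k : ℝ) * t) ^ (1 - 1 / (i : ℝ)) ≤
        (k : ℝ) * t / (j : ℝ) ^ 2 := by
      have g4 : (1 + (i : ℝ) ^ 2) ≤ (j : ℝ) ^ 2 := by nlinarith
      have g5 : (0 : ℝ) ≤ (k : ℝ) * t / (j : ℝ) ^ 4 := by positivity
      calc _ ≤ (j : ℝ) ^ 2 * ((k : ℝ) * t / (j : ℝ) ^ 4) :=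
            mul_le_mul g4 g2 (by positivity) (by positivity)
        _ = _ := by field_simp
    have g6 : (i : ℝ) * ((t : ℝ) + k) ≤ 2 * j * k := by nlinarith
    have g7 : (0 : ℝ) ≤ (M.card : ℝ) := by positivity
    nlinarith
  -- types at least j
  have h3 : j * ((H \ M).filter (fun f => j ≤ typ k M f)).card ≤ k * M.card * t := by
    calc j * ((H \ M).filter (fun f => j ≤ typ k M f)).card
        = ∑ _f ∈ (H \ M).filter (fun f => j ≤ typ k M f), j := by
          rw [sum_const, smul_eq_mul, mul_comm]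
      _ ≤ ∑ f ∈ (H \ M).filter (fun f => j ≤ typ k M f), (tr k M f).card := by
          refine sum_le_sum (fun f hf => ?_)
          rw [mem_filter, mem_sdiff] at hf
          rw [card_tr (by omega) hM hMax.1.2 (hH f hf.1.1) hf.1.2]
          exact hf.2
      _ ≤ ∑ f ∈ H \ M, (tr k M f).card :=
          sum_le_sum_of_subset (filter_subset _ _)
      _ ≤ ∑ f ∈ H \ M, ((shadow k M).filter (fun S => S ⊆ f)).card := by
          refine sum_le_sum (fun f _ => card_le_card ?_)
          intro S hS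
          rw [tr, mem_filter, mem_powersetCard] at hS
          rw [mem_filter, mem_shadow]
          exact ⟨⟨hS.1.2, hS.2⟩, hS.1.1⟩
      _ = ∑ S ∈ shadow k M, ((H \ M).filter (fun f => S ⊆ f)).card := by
          simp only [card_filter]
          rw [sum_comm]
      _ ≤ ∑ _S ∈ shadow k M, t := by
          refine sum_le_sum (fun S hS => le_trans (card_le_card ?_) (hdeg S (mem_shadow.1 hS).1))
          exact filter_subset_filter _ sdiff_subset
      _ = k * M.card * t := by
          rw [sum_const, smul_eq_mul, card_shadow (by omega) hM hMax.1.2]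
  have h3' : (((H \ M).filter (fun f => j ≤ typ k M f)).card : ℝ) ≤ k * t / j * M.card := by
    have h4 : (j : ℝ) * (((H \ M).filter (fun f => j ≤ typ k M f)).card : ℝ) ≤
        k * M.card * t := by exact_mod_cast h3
    have hj0 : (0 : ℝ) < j := by linarith
    calc (((H \ M).filter (fun f => j ≤ typ k M f)).card : ℝ)
        ≤ (k : ℝ) * M.card * t / j := by rw [le_div_iff₀ hj0]; linarith
      _ = _ := by ring
  -- the sum over the middle types
  have h2' : (((Ico 2 j).biUnion (fun i => (H \ M).filter (fun f => typ k M f = i))).card : ℝ) ≤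
      (4 * (k : ℝ) * t / j + 8 * k * (j : ℝ) ^ 2) * M.card := by
    have g1 : (((Ico 2 j).biUnion
        (fun i => (H \ M).filter (fun f => typ k M f = i))).card : ℝ) ≤
        ∑ i ∈ Ico 2 j, (((H \ M).filter (fun f => typ k M f = i)).card : ℝ) := by
      exact_mod_cast card_biUnion_le
    have g2 : ∑ i ∈ Ico 2 j, (((H \ M).filter (fun f => typ k M f = i)).card : ℝ) ≤
        ∑ _i ∈ Ico 2 j, 4 * ((k : ℝ) * t / (j : ℝ) ^ 2 + 2 * j * k) * M.card :=
      sum_le_sum (fun i hi => h2 i (mem_Ico.1 hi).1 (mem_Ico.1 hi).2)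
    rw [sum_const, nsmul_eq_mul, Nat.card_Ico] at g2
    have g3 : ((j - 2 : ℕ) : ℝ) ≤ j := by exact_mod_cast Nat.sub_le j 2
    have g4 : (0 : ℝ) ≤ 4 * ((k : ℝ) * t / (j : ℝ) ^ 2 + 2 * j * k) * M.card := by positivity
    calc _ ≤ _ := g1
      _ ≤ _ := g2
      _ ≤ (j : ℝ) * (4 * ((k : ℝ) * t / (j : ℝ) ^ 2 + 2 * j * k) * M.card) :=
          mul_le_mul_of_nonneg_right g3 g4
      _ = _ := by
          have hj0 : (j : ℝ) ≠ 0 := by linarith
          field_simp
          ring
  -- all together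
  have hsub : H ⊆ M ∪ ((H \ M).filter (fun f => typ k M f = 1) ∪
      ((Ico 2 j).biUnion (fun i => (H \ M).filter (fun f => typ k M f = i)) ∪
        (H \ M).filter (fun f => j ≤ typ k M f))) := by
    intro f hf
    by_cases hfM : f ∈ M
    · exact mem_union_left _ hfM
    · have hf' : f ∈ H \ M := mem_sdiff.2 ⟨hf, hfM⟩
      have h4 := typ_pos hk hH hMax hf'
      refine mem_union_right _ ?_
      rcases Nat.lt_or_ge (typ k M f) 2 with h5 | h5
      · exact mem_union_left _ (mem_filter.2 ⟨hf', by omega⟩)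
      · refine mem_union_right _ ?_
        rcases Nat.lt_or_ge (typ k M f) j with h6 | h6
        · exact mem_union_left _ (mem_biUnion.2 ⟨typ k M f, mem_Ico.2 ⟨h5, h6⟩,
            mem_filter.2 ⟨hf', rfl⟩⟩)
        · exact mem_union_right _ (mem_filter.2 ⟨hf', h6⟩)
  have hcard : (H.card : ℝ) ≤ M.card + (((H \ M).filter (fun f => typ k M f = 1)).card +
      ((((Ico 2 j).biUnion (fun i => (H \ M).filter (fun f => typ k M f = i))).card : ℝ) +
        ((H \ M).filter (fun f => j ≤ typ k M f)).card)) := by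
    have g1 := card_le_card hsub
    have g2 := card_union_le M ((H \ M).filter (fun f => typ k M f = 1) ∪
      ((Ico 2 j).biUnion (fun i => (H \ M).filter (fun f => typ k M f = i)) ∪
        (H \ M).filter (fun f => j ≤ typ k M f)))
    have g3 := card_union_le ((H \ M).filter (fun f => typ k M f = 1))
      ((Ico 2 j).biUnion (fun i => (H \ M).filter (fun f => typ k M f = i)) ∪
        (H \ M).filter (fun f => j ≤ typ k M f))
    have g4 := card_union_le ((Ico 2 j).biUnion (fun i => (H \ M).filter (fun f => typ k M f = i)))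
      ((H \ M).filter (fun f => j ≤ typ k M f))
    exact_mod_cast g1.trans (g2.trans (by omega))
  have h1' : (((H \ M).filter (fun f => typ k M f = 1)).card : ℝ) ≤ ((k : ℝ) + 1) * M.card := by
    exact_mod_cast h1
  have hm0 : (0 : ℝ) ≤ (M.card : ℝ) := by positivity
  have hfin : (1 : ℝ) + ((k : ℝ) + 1) + (4 * (k : ℝ) * t / j + 8 * k * (j : ℝ) ^ 2) + k * t / j ≤
      11 * k * ((j : ℝ) ^ 2 + t / j) := by
    have e1 : (0 : ℝ) ≤ k * t / j := by positivity
    have e2 : 4 * (k : ℝ) * t / j = 4 * (k * t / j) := by ring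
    have e3 : 11 * (k : ℝ) * ((j : ℝ) ^ 2 + t / j) = 11 * k * (j : ℝ) ^ 2 + 11 * (k * t / j) := by
      ring
    have e4 : (4 : ℝ) ≤ (j : ℝ) ^ 2 := by nlinarith
    have e5 : 4 * (k : ℝ) ≤ k * (j : ℝ) ^ 2 := by nlinarith
    rw [e2, e3]
    nlinarith
  calc (H.card : ℝ) ≤ _ := hcard
    _ ≤ (M.card : ℝ) + (((k : ℝ) + 1) * M.card + ((4 * (k : ℝ) * t / j + 8 * k * (j : ℝ) ^ 2) *
          M.card + k * t / j * M.card)) := by linarith
    _ = ((1 : ℝ) + ((k : ℝ) + 1) + (4 * (k : ℝ) * t / j + 8 * k * (j : ℝ) ^ 2) + k * t / j) *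
          M.card := by ring
    _ ≤ _ := mul_le_mul_of_nonneg_right hfin hm0

end Pool.Agent.Helper60.GT
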