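import Pool.Agent.Helper60.VT.Spec

/-!
# Module U5: the rate

`J = ⌊log k/(5 log log k)⌋₊`, so `4 J log J ≤ log k` (`log J ≤ log log k`), `J ≥ 2` and
`J ≥ log k/(6 log log k)` for `k` large. For `i ≥ 1` let `j = min ⌈2^(i/3)⌉ J ≥ 2`; for `G ⊆ H`
with ridge degrees `≤ 2^i ≤ k` and a maximum packing `M'` of `G` (exists; `|M'| ≤ |M|` by the
maximality of `M`) `hC : StCountT` gives `|G| ≤ A i := 11 k (j^2 + 2^i/j)|M|`
(`4 j log j ≤ 4 J log J ≤ log k`). `2 A i/2^i = 22 k (j^2/2^i + 1/j)|M| ≤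
k (110 * 2^(-i/3) + 22/J)|M|` (if `j = ⌈2^(i/3)⌉ ≤ 2 * 2^(i/3)`: `j^2/2^i ≤ 4*2^(-i/3)`,
`1/j ≤ 2^(-i/3)`; if `j = J < ⌈2^(i/3)⌉` then `J ≤ 2^(i/3)`).
Choose `i₀ ≥ 1` with `110 * 5 * 2^(-i₀/3) ≤ ε/2`, `I = max i₀ (Nat.clog 2 D)`, so
`D ≤ 2^I`, `2^I ≤ max (2^i₀) (2 D) ≤ k`, `I ≤ i₀ + 1 + log D/log 2`, and `c` with
`22 I/J ≤ ε/2` for `k` large (`I/J ≤ (i₀ + 1)/J + 6 c/log 2`). `hD : StDyad` with this `A`.
-/

set_option autoImplicit false

open Finset

namespace Pool.Agent.Helper60.GT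

/-- a maximum packing exists -/
private theorem rate_exists_max {V : Type} [DecidableEq V] (k : ℕ) (G : Finset (Finset V)) :
    ∃ M', MaxPack k G M' := by
  classical
  have hne : (G.powerset.filter (fun M' => Pack k G M')).Nonempty := by
    refine ⟨∅, mem_filter.2 ⟨mem_powerset.2 (empty_subset _), empty_subset _, ?_⟩⟩
    intro e he
    simp at he
  obtain ⟨M', hM', hmax⟩ := exists_max_image _ card hne
  refine ⟨M', (mem_filter.1 hM').2, fun M'' hM'' => hmax M'' ?_⟩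
  exact mem_filter.2 ⟨mem_powerset.2 hM''.1, hM''⟩

/-- growth of `log k / log log k` -/
private theorem rate_asym (X : ℝ) : ∃ k₀ : ℕ, 2 ≤ k₀ ∧ ∀ k : ℕ, k₀ ≤ k →
    1 ≤ Real.log (Real.log k) ∧ X ≤ Real.log k / Real.log (Real.log k) ∧ X ≤ Real.log k := by
  obtain ⟨B, hB⟩ : ∃ B : ℝ, B = |X| + 1 := ⟨_, rfl⟩
  have hB1 : 1 ≤ B := by rw [hB]; linarith [abs_nonneg X]
  have hBX : X ≤ B := by rw [hB]; linarith [le_abs_self X]
  refine ⟨max 2 ⌈Real.exp (4 * B ^ 2 + 9)⌉₊, le_max_left _ _, fun k hk => ?_⟩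
  have hk1 : Real.exp (4 * B ^ 2 + 9) ≤ k :=
    (Nat.le_ceil _).trans (by exact_mod_cast (le_max_right _ _).trans hk)
  have hk0 : (0 : ℝ) < k := (Real.exp_pos _).trans_le hk1
  have hy : 4 * B ^ 2 + 9 ≤ Real.log k := (Real.le_log_iff_exp_le hk0).2 hk1
  set y := Real.log k with hydef
  have hy0 : 0 < y := by nlinarith
  have hl1 : 1 ≤ Real.log y := by
    rw [Real.le_log_iff_exp_le hy0]
    have := Real.exp_one_lt_d9
    nlinarith
  refine ⟨hl1, ?_, by nlinarith⟩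
  have hs : Real.log y ≤ 2 * Real.sqrt y := by
    have h1 : Real.log (Real.sqrt y) ≤ Real.sqrt y - 1 :=
      Real.log_le_sub_one_of_pos (Real.sqrt_pos.2 hy0)
    rw [Real.log_sqrt hy0.le] at h1
    linarith
  have hs2 : 2 * B ≤ Real.sqrt y := by
    apply Real.le_sqrt_of_sq_le
    nlinarith
  rw [le_div_iff₀ (by linarith)]
  have h3 := Real.mul_self_sqrt hy0.le
  have hsn := Real.sqrt_nonneg y
  calc X * Real.log y ≤ B * Real.log y := mul_le_mul_of_nonneg_right hBX (by linarith)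
    _ ≤ B * (2 * Real.sqrt y) := mul_le_mul_of_nonneg_left hs (by linarith)
    _ ≤ Real.sqrt y * Real.sqrt y := by nlinarith
    _ = y := h3

/-- geometric weights -/
private theorem rate_w (i : ℕ) : 1 / (2 : ℝ) ^ (i / 3) ≤ 8 / 5 * (4 / 5 : ℝ) ^ i := by
  obtain ⟨a, b, hb, rfl⟩ : ∃ a b, b < 3 ∧ i = 3 * a + b :=
    ⟨i / 3, i % 3, Nat.mod_lt _ (by norm_num), by omega⟩
  have h1 : (3 * a + b) / 3 = a := by omega
  rw [h1, pow_add, pow_mul]
  have h2 : 1 / (2 : ℝ) ^ a ≤ ((4 / 5 : ℝ) ^ 3) ^ a := by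
    rw [← one_div_pow]
    exact pow_le_pow_left₀ (by norm_num) (by norm_num) a
  have h3 : (5 / 8 : ℝ) ≤ (4 / 5 : ℝ) ^ b := by
    interval_cases b <;> norm_num
  have h4 : (0 : ℝ) < ((4 / 5 : ℝ) ^ 3) ^ a := by positivity
  nlinarith

private theorem rate_sum (i₀ I : ℕ) (h : i₀ ≤ I) :
    ∑ i ∈ Ioc i₀ I, 1 / (2 : ℝ) ^ (i / 3) ≤ 8 * (4 / 5 : ℝ) ^ (i₀ + 1) - 8 * (4 / 5 : ℝ) ^ (I + 1) := by
  induction I, h using Nat.le_induction with
  | base => simp
  | succ n hn ih =>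
    rw [← Finset.insert_Ioc_right_eq_Ioc_add_one hn, sum_insert (by simp)]
    have h1 := rate_w (n + 1)
    rw [pow_succ (4 / 5 : ℝ) (n + 1)]
    linarith

theorem rate (hC : StCountT) (hD : StDyad) : StRate := by

  intro ε hε
  obtain ⟨i₀, hi₀⟩ : ∃ i₀ : ℕ, (4 / 5 : ℝ) ^ i₀ < ε / 1584 :=
    exists_pow_lt_of_lt_one (by positivity) (by norm_num)
  obtain ⟨c, hc⟩ : ∃ c : ℝ, c = min (ε / 1056) (1 / 4) := ⟨_, rfl⟩
  have hc0 : 0 < c := by rw [hc]; exact lt_min (by positivity) (by norm_num)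
  have hc1 : c ≤ ε / 1056 := by rw [hc]; exact min_le_left _ _
  have hc2 : c ≤ 1 / 4 := by rw [hc]; exact min_le_right _ _
  obtain ⟨X₀, hX₀⟩ : ∃ X₀ : ℝ, X₀ = 30 + 528 * (i₀ + 1) / ε + 2 * (i₀ + 1) := ⟨_, rfl⟩
  have hi0' : (0 : ℝ) ≤ i₀ := by positivity
  have hX30 : 30 ≤ X₀ := by rw [hX₀]; have : 0 ≤ 528 * ((i₀ : ℝ) + 1) / ε := by positivity
                            linarith
  have hXe : 528 * ((i₀ : ℝ) + 1) / ε ≤ X₀ := by rw [hX₀]; linarith
  have hXi : 2 * ((i₀ : ℝ) + 1) ≤ X₀ := by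
    rw [hX₀]; have : 0 ≤ 528 * ((i₀ : ℝ) + 1) / ε := by positivity
    linarith
  obtain ⟨k₀, hk₀2, hk₀⟩ := rate_asym X₀
  refine ⟨i₀, c, hc0, k₀, fun k hk D hD' V _ H M hH hMax hdeg => ?_⟩
  obtain ⟨hLL, hX, hL⟩ := hk₀ k hk
  have hk2 : 2 ≤ k := hk₀2.trans hk
  have hkR : (2 : ℝ) ≤ k := by exact_mod_cast hk2
  set L := Real.log k with hLdef
  set LL := Real.log L with hLLdef
  have hL0 : 0 < L := by linarith
  have hLL0 : 0 < LL := by linarith
  have hXL : L / LL ≤ L := div_le_self hL0.le hLL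
  obtain ⟨X, hXdef⟩ : ∃ X : ℝ, X = L / LL := ⟨_, rfl⟩
  rw [← hXdef] at hX hXL
  have hXLL : X * LL = L := by rw [hXdef]; field_simp
  -- the number J
  obtain ⟨J, hJ⟩ : ∃ J : ℕ, J = ⌊X / 5⌋₊ := ⟨_, rfl⟩
  have hJ1 : (J : ℝ) ≤ X / 5 := by rw [hJ]; exact Nat.floor_le (by linarith)
  have hJ2 : X / 6 ≤ (J : ℝ) := by
    have h1 := Nat.lt_floor_add_one (X / 5)
    rw [← hJ] at h1
    linarith
  have hJ5 : (5 : ℝ) ≤ J := by linarith
  have hJ2' : 2 ≤ J := by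
    have : (2 : ℝ) ≤ J := by linarith
    exact_mod_cast this
  have hJlog : 4 * (J : ℝ) * Real.log J ≤ L := by
    have h1 : Real.log J ≤ LL := Real.log_le_log (by linarith) (by linarith)
    have h2 : 0 ≤ Real.log J := Real.log_nonneg (by linarith)
    calc 4 * (J : ℝ) * Real.log J ≤ 4 * (X / 5) * LL := by
          apply mul_le_mul _ h1 h2 (by linarith)
          linarith
      _ = 4 / 5 * (X * LL) := by ring
      _ ≤ L := by rw [hXLL]; linarith
  -- the number I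
  obtain ⟨I, hI⟩ : ∃ I : ℕ, I = max i₀ (Nat.clog 2 D) := ⟨_, rfl⟩
  have hi₀I : i₀ ≤ I := by rw [hI]; exact le_max_left _ _
  have hDI : D ≤ 2 ^ I := by
    calc D ≤ 2 ^ Nat.clog 2 D := Nat.le_pow_clog (by norm_num) D
      _ ≤ 2 ^ I := Nat.pow_le_pow_right (by norm_num) (by rw [hI]; exact le_max_right _ _)
  have hlog2 : (1 : ℝ) / 2 ≤ Real.log 2 := by
    have := Real.log_two_gt_d9
    linarith
  have hclog : (Nat.clog 2 D : ℝ) ≤ 1 + 2 * (c * X) := by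
    rcases Nat.lt_or_ge D 2 with h1 | h1
    · have h2 : Nat.clog 2 D = 0 := Nat.clog_of_right_le_one (by omega) 2
      rw [h2]
      push_cast
      have : 0 ≤ c * X := by nlinarith
      linarith
    · have h2 : 2 ^ (Nat.clog 2 D).pred < D := Nat.pow_pred_clog_lt_self (by norm_num) h1
      have h3 : 0 < Nat.clog 2 D := Nat.clog_pos (by norm_num) h1
      obtain ⟨q, hq⟩ : ∃ q, Nat.clog 2 D = q + 1 := ⟨Nat.clog 2 D - 1, by omega⟩
      rw [hq] at h2 ⊢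
      have h4 : (2 : ℝ) ^ q ≤ Real.exp (c * X) := by
        have h5 : ((2 : ℝ) ^ q) ≤ D := by
          have : 2 ^ q ≤ D := h2.le
          exact_mod_cast this
        refine h5.trans (hD'.trans (le_of_eq ?_))
        rw [hXdef]
        congr 1
        ring
      have h6 : (q : ℝ) * Real.log 2 ≤ c * X := by
        have h7 := Real.log_le_log (by positivity) h4
        rwa [Real.log_exp, Real.log_pow] at h7
      have hq0 : (0 : ℝ) ≤ q := by positivity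
      push_cast
      nlinarith
  have hcX : 0 ≤ c * X := by nlinarith
  have hIle : (I : ℝ) ≤ i₀ + 1 + 2 * (c * X) := by
    rw [hI]
    push_cast
    refine max_le (by linarith) (by linarith)
  have hIk : 2 ^ I ≤ k := by
    have h1 : ((2 : ℝ) ^ I) ≤ k := by
      have hk0 : (0 : ℝ) < k := by linarith
      rw [← Real.log_le_log_iff (by positivity) hk0, Real.log_pow]
      have h2 : Real.log 2 ≤ 1 := by
        have := Real.log_two_lt_d9
        linarith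
      have h3 : (I : ℝ) * Real.log 2 ≤ I := by
        have : (0 : ℝ) ≤ I := by positivity
        nlinarith
      have h4 : c * X ≤ 1 / 4 * L := by
        calc c * X ≤ 1 / 4 * X := mul_le_mul_of_nonneg_right hc2 (by linarith)
          _ ≤ 1 / 4 * L := by linarith
      rw [← hLdef]
      linarith
    exact_mod_cast h1
  -- the scales
  let jj : ℕ → ℕ := fun i => min (2 ^ (i / 3 + 1)) J
  have hjj2 : ∀ i, 2 ≤ jj i := by
    intro i
    refine le_min ?_ hJ2'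
    calc 2 = 2 ^ 1 := by norm_num
      _ ≤ 2 ^ (i / 3 + 1) := Nat.pow_le_pow_right (by norm_num) (by omega)
  have hjjJ : ∀ i, jj i ≤ J := fun i => min_le_right _ _
  have hjjlog : ∀ i, 4 * (jj i : ℝ) * Real.log (jj i) ≤ L := by
    intro i
    refine le_trans ?_ hJlog
    have h1 : (jj i : ℝ) ≤ J := by exact_mod_cast hjjJ i
    have h2 : (2 : ℝ) ≤ jj i := by exact_mod_cast hjj2 i
    have h3 : Real.log (jj i) ≤ Real.log J := Real.log_le_log (by linarith) h1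
    have h4 : 0 ≤ Real.log (jj i) := Real.log_nonneg (by linarith)
    exact mul_le_mul (by linarith) h3 h4 (by linarith)
  have hjjsq : ∀ i, (jj i : ℝ) ^ 2 / 2 ^ i ≤ 4 * (1 / (2 : ℝ) ^ (i / 3)) := by
    intro i
    have h1 : (jj i : ℝ) ≤ 2 ^ (i / 3 + 1) := by
      have : jj i ≤ 2 ^ (i / 3 + 1) := min_le_left _ _
      exact_mod_cast this
    have h2 : (jj i : ℝ) ^ 2 ≤ 4 * ((2 : ℝ) ^ (i / 3)) ^ 2 := by
      calc (jj i : ℝ) ^ 2 ≤ (2 ^ (i / 3 + 1)) ^ 2 := pow_le_pow_left₀ (by positivity) h1 2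
        _ = 4 * ((2 : ℝ) ^ (i / 3)) ^ 2 := by rw [pow_succ]; ring
    have h3 : ((2 : ℝ) ^ (i / 3)) ^ 3 ≤ 2 ^ i := by
      rw [← pow_mul]
      exact pow_le_pow_right₀ (by norm_num) (by omega)
    rw [div_le_iff₀ (by positivity)]
    have h4 : (0 : ℝ) < 2 ^ (i / 3) := by positivity
    calc (jj i : ℝ) ^ 2 ≤ 4 * ((2 : ℝ) ^ (i / 3)) ^ 2 := h2
      _ = 4 * (1 / (2 : ℝ) ^ (i / 3)) * ((2 : ℝ) ^ (i / 3)) ^ 3 := by field_simp
      _ ≤ 4 * (1 / (2 : ℝ) ^ (i / 3)) * 2 ^ i :=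
          mul_le_mul_of_nonneg_left h3 (by positivity)
  have hjjinv : ∀ i, 1 / (jj i : ℝ) ≤ 1 / 2 * (1 / (2 : ℝ) ^ (i / 3)) + 1 / J := by
    intro i
    have hJ0 : (0 : ℝ) < J := by linarith
    rcases min_choice (2 ^ (i / 3 + 1)) J with h1 | h1
    · have h2 : (jj i : ℝ) = 2 ^ (i / 3 + 1) := by
        have : jj i = 2 ^ (i / 3 + 1) := h1
        rw [this]; push_cast; rfl
      rw [h2, pow_succ]
      have h3 : (0 : ℝ) < 1 / J := by positivity
      have h4 : 1 / ((2 : ℝ) ^ (i / 3) * 2) = 1 / 2 * (1 / (2 : ℝ) ^ (i / 3)) := by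
        field_simp
      rw [h4]
      linarith
    · have h2 : (jj i : ℝ) = J := by
        have : jj i = J := h1
        rw [this]
      rw [h2]
      have h3 : (0 : ℝ) < 1 / 2 * (1 / (2 : ℝ) ^ (i / 3)) := by positivity
      linarith
  obtain ⟨A, hA⟩ : ∃ A : ℕ → ℝ, A = fun i =>
    11 * (k : ℝ) * ((jj i : ℝ) ^ 2 + ((2 ^ i : ℕ) : ℝ) / jj i) * M.card := ⟨_, rfl⟩
  obtain ⟨G, hG, C, hC1, hC2, hC3, hC4⟩ := hD V k i₀ I A H hi₀I
    (fun S hS => (hdeg S hS).trans hDI) (by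
      intro i hi hiI G hG hGdeg
      obtain ⟨M', hM'⟩ := rate_exists_max k G
      have h1 := hC V k (jj i) (2 ^ i) G M' hk2 (hjj2 i) Nat.one_le_two_pow
        ((Nat.pow_le_pow_right (by norm_num) hiI).trans hIk) (hjjlog i)
        (fun e he => hH e (hG he)) hM' hGdeg
      have h2 : M'.card ≤ M.card := hMax.2 M' ⟨hM'.1.1.trans hG, hM'.1.2⟩
      have h2' : (M'.card : ℝ) ≤ M.card := by exact_mod_cast h2
      refine h1.trans ?_
      rw [hA]
      exact mul_le_mul_of_nonneg_left h2' (by positivity))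
  refine ⟨G, hG, C, hC1, hC2, hC3, hC4.trans ?_⟩
  -- the total cost
  have hkM : (0 : ℝ) ≤ (k : ℝ) * M.card := by positivity
  have hterm : ∀ i ∈ Ioc i₀ I, 2 * A i / 2 ^ i ≤
      (99 * (1 / (2 : ℝ) ^ (i / 3)) + 22 / J) * (k * M.card) := by
    intro i _
    have h1 : 2 * A i / 2 ^ i = 22 * ((jj i : ℝ) ^ 2 / 2 ^ i + 1 / jj i) * (k * M.card) := by
      rw [hA]
      have h2 : (jj i : ℝ) ≠ 0 := by
        have : (2 : ℝ) ≤ jj i := by exact_mod_cast hjj2 i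
        linarith
      push_cast
      field_simp
      ring
    rw [h1]
    apply mul_le_mul_of_nonneg_right _ hkM
    have h3 := hjjsq i
    have h4 := hjjinv i
    have h5 : 22 / (J : ℝ) = 22 * (1 / J) := by ring
    rw [h5]
    linarith
  calc ∑ i ∈ Ioc i₀ I, 2 * A i / 2 ^ i
      ≤ ∑ i ∈ Ioc i₀ I, (99 * (1 / (2 : ℝ) ^ (i / 3)) + 22 / J) * (k * M.card) :=
        sum_le_sum hterm
    _ = (99 * ∑ i ∈ Ioc i₀ I, 1 / (2 : ℝ) ^ (i / 3) + ((I - i₀ : ℕ) : ℝ) * (22 / J)) *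
          (k * M.card) := by
        rw [← sum_mul, sum_add_distrib, ← mul_sum, sum_const, Nat.card_Ioc, nsmul_eq_mul]
    _ ≤ ε * (k * M.card) := by
        apply mul_le_mul_of_nonneg_right _ hkM
        have h1 := rate_sum i₀ I hi₀I
        have h2 : (0 : ℝ) < (4 / 5 : ℝ) ^ (I + 1) := by positivity
        have h3 : (4 / 5 : ℝ) ^ (i₀ + 1) ≤ (4 / 5 : ℝ) ^ i₀ :=
          pow_le_pow_of_le_one (by norm_num) (by norm_num) (by omega)
        have h4 : ((I - i₀ : ℕ) : ℝ) ≤ I := by exact_mod_cast Nat.sub_le _ _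
        have hX0 : 0 < X := by linarith
        have h5 : 22 / (J : ℝ) ≤ 132 / X := by
          rw [div_le_div_iff₀ (by linarith) hX0]
          linarith
        have h6 : ((I - i₀ : ℕ) : ℝ) * (22 / J) ≤ (i₀ + 1 + 2 * (c * X)) * (132 / X) :=
          mul_le_mul (h4.trans hIle) h5 (by positivity) (by positivity)
        have h7 : ((i₀ : ℝ) + 1 + 2 * (c * X)) * (132 / X) = 132 * (i₀ + 1) / X + 264 * c := by
          field_simp
          ring
        have h8 : 132 * ((i₀ : ℝ) + 1) / X ≤ ε / 4 := by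
          rw [div_le_iff₀ hX0]
          have h9 : 528 * ((i₀ : ℝ) + 1) / ε ≤ X := hXe.trans hX
          rw [div_le_iff₀ hε] at h9
          linarith
        linarith
    _ = ε * k * M.card := by ring

end Pool.Agent.Helper60.GT
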