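import Pool.Agent.Helper60.VT.Spec
import Pool.Agent.Helper60.GT.Geo

/-!
# Module U2: the number of edges of type `j`

`q = (k t)^(-1/j)` (real power), so `q^j k t = 1`, `0 < q ≤ 1`; `x f = x` constant,
`x = 1/(2 (1 + j^2 + j (t + k) q^(j-1)))`. `hS` with `N = nbr k M`, `A = Adj k`; the exchange
hypothesis is `exchange` (Geo). Degree sum: `hD : StDeg` with `a = b = j`, `δ = 1`, `θ = q`,
`ξ = x`, `T = Λ = t` (the load with `δ = 1` is a number of edges containing `R`, at most `t`):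
`≤ x (q^j k t + j q^(j-1) t + j k q^(j-1) + j^2) = 1/2`. Conclusion
`1/2 * x q^j |F| ≤ q |M|`, i.e. `|F| ≤ 2|M|/(x q^(j-1)) = 4|M| ((1+j^2)/q^(j-1) + j (t+k))`.
-/

set_option autoImplicit false

open Finset

namespace Pool.Agent.Helper60.GT

theorem typeJ (hS : StSampT) (hD : StDeg) : StTypeJ := by
  intro V _ k j t H M F hk hj ht hH hMax hF htyp hdeg
  have hj0 : (0 : ℝ) < j := by
    have : 0 < j := by omega
    exact_mod_cast this
  have hj1 : (1 : ℝ) ≤ j := by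
    have : 1 ≤ j := by omega
    exact_mod_cast this
  have hk0 : (0 : ℝ) < k := by
    have : 0 < k := by omega
    exact_mod_cast this
  have hk1 : (1 : ℝ) ≤ k := by
    have : 1 ≤ k := by omega
    exact_mod_cast this
  have ht1 : (1 : ℝ) ≤ t := by exact_mod_cast ht
  have ht0 : (0 : ℝ) < t := lt_of_lt_of_le one_pos ht1
  have hkt : (0 : ℝ) < (k : ℝ) * t := mul_pos hk0 ht0
  have hkt1 : (1 : ℝ) ≤ (k : ℝ) * t := one_le_mul_of_one_le_of_one_le hk1 ht1
  set q : ℝ := ((k : ℝ) * t) ^ (-(1 / (j : ℝ))) with hq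
  have hq0 : 0 < q := Real.rpow_pos_of_pos hkt _
  have hq1 : q ≤ 1 := by
    refine Real.rpow_le_one_of_one_le_of_nonpos hkt1 ?_
    have : 0 ≤ 1 / (j : ℝ) := by positivity
    linarith
  have hqj : q ^ j * ((k : ℝ) * t) = 1 := by
    rw [hq, ← Real.rpow_natCast, ← Real.rpow_mul hkt.le]
    have e : -(1 / (j : ℝ)) * (j : ℝ) = -1 := by
      field_simp
    rw [e, Real.rpow_neg_one, inv_mul_cancel₀ hkt.ne']
  have hpow : q ^ j = q ^ (j - 1) * q := by
    rw [← pow_succ]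
    congr 1
    omega
  have hQ0 : 0 < q ^ (j - 1) := pow_pos hq0 _
  have hR : ((k : ℝ) * t) ^ (1 - 1 / (j : ℝ)) * q ^ (j - 1) = 1 := by
    have e1 : ((k : ℝ) * t) ^ (1 - 1 / (j : ℝ)) = (k : ℝ) * t * q := by
      rw [hq, sub_eq_add_neg, Real.rpow_add hkt, Real.rpow_one]
    rw [e1]
    have e2 : (k : ℝ) * t * q * q ^ (j - 1) = q ^ j * ((k : ℝ) * t) := by
      rw [hpow]
      ring
    rw [e2, hqj]
  set D : ℝ := 1 + (j : ℝ) ^ 2 + j * (t + k) * q ^ (j - 1) with hDd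
  have hD1 : 1 ≤ D := by
    have h1 : 0 ≤ (j : ℝ) ^ 2 := by positivity
    have h2 : 0 ≤ (j : ℝ) * (t + k) * q ^ (j - 1) := by positivity
    rw [hDd]
    linarith
  have hD0 : 0 < D := lt_of_lt_of_le one_pos hD1
  set ξ : ℝ := 1 / (2 * D) with hξ
  have hξ0 : 0 < ξ := by
    rw [hξ]
    positivity
  have hξ1 : ξ ≤ 1 := by
    rw [hξ, div_le_one (by positivity)]
    linarith
  have hξD : ξ * D = 1 / 2 := by
    rw [hξ]
    field_simp
  have hMk : ∀ m ∈ M, m.card = k := fun m hm => hH m (hMax.1.1 hm)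
  have hMp : ∀ m ∈ M, ∀ m' ∈ M, m ≠ m' → (m ∩ m').card < k - 1 := hMax.1.2
  have hFk : ∀ f ∈ F, f.card = k ∧ f ∉ M ∧ j ≤ typ k M f ∧ typ k M f ≤ j := by
    intro f hf
    have h5 := mem_sdiff.mp (hF hf)
    exact ⟨hH f h5.1, h5.2, (htyp f hf).ge, (htyp f hf).le⟩
  have hload : ∀ R : Finset V, R.card = k - 1 → load k M F 1 R ≤ t := by
    intro R hR
    unfold load
    have e1 : ∑ f ∈ F.filter (fun f => R ⊆ f), (1 : ℝ) ^ typ k M f =
        ((F.filter (fun f => R ⊆ f)).card : ℝ) := by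
      simp
    rw [e1]
    have h6 : (F.filter (fun f => R ⊆ f)).card ≤ (H.filter (fun f => R ⊆ f)).card :=
      card_le_card (filter_subset_filter _ (hF.trans sdiff_subset))
    exact_mod_cast h6.trans (hdeg R hR)
  have hcard : ∀ f ∈ F, (nbr k M f).card = j := htyp
  have key := hS (Finset V) (Finset V) F M (nbr k M) (Adj k) q
    (fun _ => ξ) (fun f g h => Adj.symm h) (fun f => Adj.irrefl f) hq0 hq1 ?_ ?_ ?_ ?_
  · have e1 : ∑ f ∈ F, ξ * q ^ (nbr k M f).card = F.card * (ξ * q ^ j) := by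
      rw [sum_congr rfl (fun f hf => by rw [hcard f hf]), sum_const, nsmul_eq_mul]
    rw [e1, hpow] at key
    -- key : 1/2 * (|F| * (ξ * (Q * q))) ≤ q * |M|
    have h7 : (F.card : ℝ) * (ξ * q ^ (j - 1)) ≤ 2 * M.card := by
      have h8 : (F.card : ℝ) * (ξ * q ^ (j - 1)) * q ≤ 2 * M.card * q := by
        have : (F.card : ℝ) * (ξ * q ^ (j - 1)) * q =
            2 * (1 / 2 * (F.card * (ξ * (q ^ (j - 1) * q)))) := by ring
        rw [this]
        linarith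
      exact le_of_mul_le_mul_right h8 hq0
    have h9 : (F.card : ℝ) = (F.card : ℝ) * (ξ * q ^ (j - 1)) *
        (2 * D * ((k : ℝ) * t) ^ (1 - 1 / (j : ℝ))) := by
      have : (F.card : ℝ) * (ξ * q ^ (j - 1)) * (2 * D * ((k : ℝ) * t) ^ (1 - 1 / (j : ℝ))) =
          F.card * (2 * (ξ * D)) * (((k : ℝ) * t) ^ (1 - 1 / (j : ℝ)) * q ^ (j - 1)) := by ring
      rw [this, hξD, hR]
      ring
    have hK0 : 0 < ((k : ℝ) * t) ^ (1 - 1 / (j : ℝ)) := Real.rpow_pos_of_pos hkt _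
    have h10 : (F.card : ℝ) ≤ 2 * M.card * (2 * D * ((k : ℝ) * t) ^ (1 - 1 / (j : ℝ))) := by
      rw [h9]
      exact mul_le_mul_of_nonneg_right h7 (by positivity)
    refine h10.trans (le_of_eq ?_)
    have h11 : D * ((k : ℝ) * t) ^ (1 - 1 / (j : ℝ)) =
        (1 + (j : ℝ) ^ 2) * ((k : ℝ) * t) ^ (1 - 1 / (j : ℝ)) + j * (t + k) := by
      rw [hDd]
      have : (1 + (j : ℝ) ^ 2 + j * (t + k) * q ^ (j - 1)) *
          ((k : ℝ) * t) ^ (1 - 1 / (j : ℝ)) =
          (1 + (j : ℝ) ^ 2) * ((k : ℝ) * t) ^ (1 - 1 / (j : ℝ)) +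
          j * (t + k) * (((k : ℝ) * t) ^ (1 - 1 / (j : ℝ)) * q ^ (j - 1)) := by ring
      rw [this, hR, mul_one]
    rw [← h11]
    ring
  · intro f _
    exact ⟨hξ0.le, hξ1⟩
  · intro f _
    exact filter_subset _ _
  · intro M₀ hM₀ P hP hind hN
    exact exchange hMax hM₀ (hP.trans hF) hind hN
  · intro f hf
    have e1 : ∑ g ∈ F.filter (fun g => Adj k f g), ξ * q ^ (nbr k M g).card /
        q ^ (nbr k M f ∩ nbr k M g).card =
        ∑ g ∈ F.filter (fun g => Adj k f g), ξ * q ^ j * (1 : ℝ) ^ typ k M g /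
          (q * 1) ^ (nbr k M f ∩ nbr k M g).card := by
      refine sum_congr rfl fun g hg => ?_
      rw [hcard g (mem_filter.mp hg).1, one_pow, mul_one, mul_one]
    refine (le_of_eq e1).trans ?_
    refine (hD V k j j M F ξ q 1 t t hk hj le_rfl hMk hMp hFk hξ0 hq0 hq1
      one_pos le_rfl ht0.le ht0.le (fun R hR _ => hload R hR) (fun R hR _ => hload R hR)
      f hf).trans (le_of_eq ?_)
    rw [one_pow, mul_one, div_one]
    have h12 : (k : ℝ) * (ξ * q ^ j * t) + j * (ξ * q ^ (j - 1) * t) +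
        j * k * (ξ * q ^ (j - 1)) + (j : ℝ) ^ 2 * ξ =
        ξ * (q ^ j * ((k : ℝ) * t) + (j : ℝ) ^ 2 + j * (t + k) * q ^ (j - 1)) := by ring
    rw [h12, hqj, ← hDd, hξD]

end Pool.Agent.Helper60.GT
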