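import Pool.Agent.Helper60.VT.Main
import Pool.Agent.Helper60.VT.SampT
import Pool.Agent.Helper60.VT.TypeJ
import Pool.Agent.Helper60.VT.CountT
import Pool.Agent.Helper60.VT.Dyad
import Pool.Agent.Helper60.VT.Rate
import Pool.Agent.Helper60.GT.Deg
import Pool.Agent.Helper60.GT.Cap
import Pool.Agent.Helper60.GT.Single

/-!
# Ridge degrees up to `exp (c log k / log log k)`: `τ ≤ (1/2 + ε) k ν`
-/

set_option autoImplicit false

open Finset

namespace Pool.Agent.Helper60.VT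

open Pool.Agent.Helper37.FracTuza Pool.Agent.Helper5.FracCover

theorem stRate : GT.StRate :=
  GT.rate (GT.countT (GT.typeJ GT.sampT GT.deg) GT.single) (GT.dyad GT.greedy)

theorem subpoly (ε : ℝ) (hε : 0 < ε) :
    ∃ c : ℝ, 0 < c ∧ ∃ k₀ : ℕ, ∀ k : ℕ, k₀ ≤ k → ∀ (n : ℕ) (H : Finset (Finset (Fin n))),
      (∀ e ∈ H, e.card = k) → ∀ D : ℕ,
      (D : ℝ) ≤ Real.exp (c * Real.log k / Real.log (Real.log k)) →
      (∀ S : Finset (Fin n), S.card = k - 1 → (H.filter (fun e => S ⊆ e)).card ≤ D) →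
      ∃ M C : Finset (Finset (Fin n)), IsPacking k H M ∧ IsCover k H C ∧
        (C.card : ℝ) ≤ (1 / 2 + ε) * k * M.card := by
  obtain ⟨i₀, c, hc, k₁, h₁⟩ := stRate (ε / 2) (by positivity)
  obtain ⟨k₂, h₂⟩ := bounded (ε / 2) (by positivity) (2 ^ i₀)
  refine ⟨c, hc, max k₁ k₂, fun k hk n H hH D hD hdeg => ?_⟩
  obtain ⟨M, hM, hmax⟩ := exists_maximum k H
  obtain ⟨G, hGH, C, hC1, hC2, hG, hC3⟩ :=
    h₁ k ((le_max_left _ _).trans hk) D hD (Fin n) H M hH ⟨hM, hmax⟩ hdeg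
  obtain ⟨M', C', hM', hC', hle⟩ :=
    h₂ k ((le_max_right _ _).trans hk) n G (fun e he => hH e (hGH he)) hG
  refine ⟨M, C ∪ C', hM, ⟨?_, ?_⟩, ?_⟩
  · intro S hS
    rcases mem_union.1 hS with h | h
    · exact hC1 S h
    · exact hC'.1 S h
  · intro e he
    by_cases heG : e ∈ G
    · obtain ⟨S, hS, hSe⟩ := hC'.2 e heG
      exact ⟨S, mem_union_right _ hS, hSe⟩
    · obtain ⟨S, hS, hSe⟩ := hC2 e he heG
      exact ⟨S, mem_union_left _ hS, hSe⟩
  · have h3 : (M'.card : ℝ) ≤ M.card := by exact_mod_cast hmax M' ⟨hM'.1.trans hGH, hM'.2⟩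
    have h4 : ((C ∪ C').card : ℝ) ≤ C.card + C'.card := by exact_mod_cast card_union_le C C'
    have hk0 : (0 : ℝ) ≤ k := Nat.cast_nonneg k
    have h5 : (1 / 2 + ε / 2) * k * M'.card ≤ (1 / 2 + ε / 2) * k * (M.card : ℝ) :=
      mul_le_mul_of_nonneg_left h3 (by positivity)
    calc ((C ∪ C').card : ℝ) ≤ C.card + C'.card := h4
      _ ≤ ε / 2 * k * M.card + (1 / 2 + ε / 2) * k * M'.card := add_le_add hC3 hle
      _ ≤ ε / 2 * k * M.card + (1 / 2 + ε / 2) * k * M.card := by linarith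
      _ = (1 / 2 + ε) * k * M.card := by ring

end Pool.Agent.Helper60.VT
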