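import Pool.Agent.Helper60.VT.Basic

/-!
# The conflict graph: degrees and codegrees
-/

set_option autoImplicit false

open Finset

namespace Pool.Agent.Helper60.VT

open Pool.Agent.Helper37.FracTuza Pool.Agent.Helper5.FracCover

variable {n k : ℕ}

instance (k : ℕ) : DecidableRel (Con k : Finset (Fin n) → Finset (Fin n) → Prop) :=
  fun e f => inferInstanceAs (Decidable (e ≠ f ∧ k - 1 ≤ (e ∩ f).card))

theorem deg_le (hk : 1 ≤ k) {H : Finset (Finset (Fin n))} (hH : ∀ e ∈ H, e.card = k) {D : ℕ}
    (hD : ∀ S : Finset (Fin n), S.card = k - 1 → (H.filter (fun e => S ⊆ e)).card ≤ D)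
    {e : Finset (Fin n)} (he : e ∈ H) : (H.filter (fun f => Con k e f)).card ≤ k * D := by
  have hsub : H.filter (fun f => Con k e f) ⊆
      (e.powersetCard (k - 1)).biUnion (fun S => H.filter (fun f => S ⊆ f)) := by
    intro f hf
    rw [mem_filter] at hf
    rw [mem_biUnion]
    exact ⟨e ∩ f, mem_powersetCard.2 ⟨inter_subset_left, con_card (hH e he) (hH f hf.1) hf.2⟩,
      mem_filter.2 ⟨hf.1, inter_subset_right⟩⟩
  refine (card_le_card hsub).trans (card_biUnion_le.trans ?_)
  refine (sum_le_card_nsmul _ _ D (fun S hS => hD S (mem_powersetCard.1 hS).2)).trans ?_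
  rw [card_powersetCard, hH e he, smul_eq_mul]
  have : k.choose (k - 1) = k := by
    obtain ⟨j, rfl⟩ : ∃ j, k = j + 1 := ⟨k - 1, by omega⟩
    simp
  rw [this]

theorem codeg_le (hk : 3 ≤ k) {H : Finset (Finset (Fin n))} (hH : ∀ e ∈ H, e.card = k) {D : ℕ}
    (hD : ∀ S : Finset (Fin n), S.card = k - 1 → (H.filter (fun e => S ⊆ e)).card ≤ D)
    {u v : Finset (Fin n)} (hu : u ∈ H) (hv : v ∈ H) (huv : u ≠ v) :
    (H.filter (fun w => Con k u w ∧ Con k v w)).card ≤ k + 1 + D := by
  have hcu := hH u hu
  have hcv := hH v hv
  by_cases hadj : Con k u v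
  · have hint := con_card hcu hcv hadj
    have hsub : H.filter (fun w => Con k u w ∧ Con k v w) ⊆
        (u ∪ v).powersetCard k ∪ H.filter (fun w => u ∩ v ⊆ w) := by
      intro w hw
      rw [mem_filter] at hw
      rcases common hcu hcv (hH w hw.1) hadj hw.2.1 hw.2.2 with h | h
      · exact mem_union_right _ (mem_filter.2 ⟨hw.1, h⟩)
      · exact mem_union_left _ (mem_powersetCard.2 ⟨h, hH w hw.1⟩)
    refine (card_le_card hsub).trans ((card_union_le _ _).trans ?_)
    refine add_le_add ?_ (hD _ hint)
    rw [card_powersetCard]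
    have h4 := card_union_add_card_inter u v
    rw [hcu, hcv, hint] at h4
    have h5 : (u ∪ v).card = k + 1 := by omega
    rw [h5, Nat.choose_succ_self_right]
  · -- non-adjacent: at most four common neighbours
    have hnc : (u ∩ v).card < k - 1 := by
      by_contra h
      exact hadj ⟨huv, not_lt.1 h⟩
    have hsub : H.filter (fun w => Con k u w ∧ Con k v w) ⊆
        ((u \ v) ×ˢ (v \ u)).image (fun p => insert p.2 (u.erase p.1)) := by
      intro w hw
      rw [mem_filter] at hw
      obtain ⟨hwH, hwu, hwv⟩ := hw
      have hcw := hH w hwH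
      have c1 := con_card hcu hcw hwu
      have c2 := con_card hcv hcw hwv
      have d1 : (u \ w).card = 1 := by
        have := card_sdiff_add_card_inter u w
        omega
      have d2 : (w \ u).card = 1 := by
        have := card_sdiff_add_card_inter w u
        rw [inter_comm] at this
        omega
      have d3 : (w \ v).card = 1 := by
        have := card_sdiff_add_card_inter w v
        rw [inter_comm] at this
        omega
      have d4 : 2 ≤ (u \ v).card := by
        have := card_sdiff_add_card_inter u v
        omega
      obtain ⟨x, hx⟩ := card_eq_one.1 d1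
      obtain ⟨y, hy⟩ := card_eq_one.1 d2
      obtain ⟨z, hz⟩ := card_eq_one.1 d3
      have hxu : x ∈ u ∧ x ∉ w := by
        have : x ∈ u \ w := by rw [hx]; exact mem_singleton_self x
        exact mem_sdiff.1 this
      have hyw : y ∈ w ∧ y ∉ u := by
        have : y ∈ w \ u := by rw [hy]; exact mem_singleton_self y
        exact mem_sdiff.1 this
      -- an element of `u \ v` other than `x` is in `w \ v`
      have key : ∀ t ∈ u \ v, t ≠ x → t = z := by
        intro t ht htx
        have htw : t ∈ w := by
          by_contra hn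
          have : t ∈ u \ w := mem_sdiff.2 ⟨(mem_sdiff.1 ht).1, hn⟩
          rw [hx, mem_singleton] at this
          exact htx this
        have : t ∈ w \ v := mem_sdiff.2 ⟨htw, (mem_sdiff.1 ht).2⟩
        rw [hz, mem_singleton] at this
        exact this
      have hxv : x ∈ u \ v := by
        by_contra hn
        obtain ⟨t1, h1, t2, h2, h12⟩ := one_lt_card.1 (by omega : 1 < (u \ v).card)
        have e1 := key t1 h1 (fun h => hn (h ▸ h1))
        have e2 := key t2 h2 (fun h => hn (h ▸ h2))
        exact h12 (e1.trans e2.symm)
      have hyv : y ∈ v \ u := by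
        rw [mem_sdiff]
        refine ⟨?_, hyw.2⟩
        by_contra hn
        have hyz : y = z := by
          have : y ∈ w \ v := mem_sdiff.2 ⟨hyw.1, hn⟩
          rw [hz, mem_singleton] at this
          exact this
        obtain ⟨t1, h1, t2, h2, h12⟩ := one_lt_card.1 (by omega : 1 < (u \ v).card)
        have : ∃ t ∈ u \ v, t ≠ x := by
          by_cases h : t1 = x
          · exact ⟨t2, h2, fun h' => h12 (h.trans h'.symm)⟩
          · exact ⟨t1, h1, h⟩
        obtain ⟨t, ht, htx⟩ := this
        have e1 := key t ht htx
        exact hyw.2 (hyz ▸ e1 ▸ (mem_sdiff.1 ht).1)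
      rw [mem_image]
      refine ⟨(x, y), mem_product.2 ⟨hxv, hyv⟩, ?_⟩
      symm
      apply eq_of_subset_of_card_le
      · intro t ht
        by_cases htu : t ∈ u
        · exact mem_insert_of_mem (mem_erase.2 ⟨fun h => hxu.2 (by
            have h' : t = x := h
            rw [← h']; exact ht), htu⟩)
        · have : t ∈ w \ u := mem_sdiff.2 ⟨ht, htu⟩
          rw [hy, mem_singleton] at this
          exact this ▸ mem_insert_self _ _
      · refine (card_insert_le _ _).trans ?_
        rw [card_erase_of_mem hxu.1]
        omega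
    by_cases hne : (H.filter (fun w => Con k u w ∧ Con k v w)).Nonempty
    · obtain ⟨w, hw⟩ := hne
      rw [mem_filter] at hw
      obtain ⟨hwH, hwu, hwv⟩ := hw
      have hcw := hH w hwH
      have c1 := con_card hcu hcw hwu
      have c2 := con_card hcv hcw hwv
      have hle : (u \ v).card ≤ 2 := by
        have h1 : u \ v ⊆ (u \ w) ∪ (w \ v) := by
          intro t ht
          by_cases h : t ∈ w
          · exact mem_union_right _ (mem_sdiff.2 ⟨h, (mem_sdiff.1 ht).2⟩)
          · exact mem_union_left _ (mem_sdiff.2 ⟨(mem_sdiff.1 ht).1, h⟩)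
        have h2 := (card_le_card h1).trans (card_union_le _ _)
        have d1 := card_sdiff_add_card_inter u w
        have d3 := card_sdiff_add_card_inter w v
        rw [inter_comm w v] at d3
        omega
      have hle' : (v \ u).card ≤ 2 := by
        have d1 := card_sdiff_add_card_inter u v
        have d3 := card_sdiff_add_card_inter v u
        rw [inter_comm v u] at d3
        omega
      refine (card_le_card hsub).trans (card_image_le.trans ?_)
      rw [card_product]
      have : (u \ v).card * (v \ u).card ≤ 2 * 2 := Nat.mul_le_mul hle hle'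
      omega
    · rw [not_nonempty_iff_eq_empty] at hne
      rw [hne]
      simp

/-- the number of edges is at most the number of colours times the packing number -/
theorem card_le_of_colorable {H : Finset (Finset (Fin n))} {c ν : ℕ}
    (G : SimpleGraph {e // e ∈ H}) (hG : ∀ a b : {e // e ∈ H}, a ≠ b → ¬ G.Adj a b →
      (a.1 ∩ b.1).card < k - 1) (hc : G.Colorable c)
    (hν : ∀ M, IsPacking k H M → M.card ≤ ν) : H.card ≤ c * ν := by
  classical
  obtain ⟨col⟩ := hc
  have h1 : ∀ i : Fin c, ((H.attach.filter (fun e => col e = i)).image Subtype.val).card ≤ ν := by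
    intro i
    apply hν
    refine ⟨?_, ?_⟩
    · intro e he
      obtain ⟨a, _, rfl⟩ := mem_image.1 he
      exact a.2
    · intro e he f hf hef
      obtain ⟨a, ha, rfl⟩ := mem_image.1 he
      obtain ⟨b, hb, rfl⟩ := mem_image.1 hf
      refine hG a b (fun h => hef (by rw [h])) ?_
      intro hadj
      exact col.valid hadj ((mem_filter.1 ha).2.trans (mem_filter.1 hb).2.symm)
  have h2 : H.card = ∑ i : Fin c, (H.attach.filter (fun e => col e = i)).card := by
    rw [← card_eq_sum_card_fiberwise (fun x _ => by simp), card_attach]
  rw [h2]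
  calc ∑ i : Fin c, (H.attach.filter (fun e => col e = i)).card
      ≤ ∑ _i : Fin c, ν := by
        apply sum_le_sum
        intro i _
        have := h1 i
        rwa [card_image_of_injective _ Subtype.val_injective] at this
    _ = c * ν := by simp

end Pool.Agent.Helper60.VT
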