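import Pool.Agent.Helper69.VU.BatchG
import Pool.Agent.Helper69.VU.BatchHAsm
import Pool.Agent.Helper69.VU.Chern
import Pool.Agent.Helper69.VU.Colour
import Pool.Agent.Helper69.VU.CovA
import Pool.Agent.Helper69.VU.CovB
import Pool.Agent.Helper69.VU.CovC
import Pool.Agent.Helper69.VU.Det
import Pool.Agent.Helper69.VU.LLL
import Pool.Agent.Helper69.VU.Local
import Pool.Agent.Helper69.VU.MainAsm
import Pool.Agent.Helper69.VU.Num
import Pool.Agent.Helper69.VU.PosA
import Pool.Agent.Helper69.VU.PosB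
import Pool.Agent.Helper69.VU.PosC
import Pool.Agent.Helper69.VU.PosD
import Pool.Agent.Helper69.VU.PosE
import Pool.Agent.Helper69.VU.PosF
import Pool.Agent.Helper69.VU.Proc
import Pool.Agent.Helper69.VU.StarAsm
import Pool.Agent.Helper69.VU.VuAsm


/-!
# Vu's theorem for graphs of bounded codegree (the team's proof, problem MP_6d4b10)
-/

set_option autoImplicit false

open Pool

namespace Pool.Agent.Helper60.VT

/-- For all `ι > 0` and `σ` in `[0,1]` there is `Δ₀` such that every finite graph with maximum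
degree `Δ ≥ Δ₀` in which any two distinct vertices have at most `(1-σ)Δ` common neighbours has a
proper colouring with at most `(1-σ+ι)Δ` colours. -/
theorem vu :
    ∀ ι : ℝ, 0 < ι → ∀ σ : ℝ, 0 ≤ σ → σ ≤ 1 →
      ∃ Δ₀ : ℕ, ∀ (V : Type) [Fintype V] [DecidableEq V] (G : SimpleGraph V) [DecidableRel G.Adj],
        Δ₀ ≤ G.maxDegree →
        (∀ u v : V, u ≠ v →
          ((G.neighborFinset u ∩ G.neighborFinset v).card : ℝ) ≤ (1 - σ) * (G.maxDegree : ℝ)) →
        ∃ k : ℕ, G.Colorable k ∧ (k : ℝ) ≤ (1 - σ + ι) * (G.maxDegree : ℝ) := by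
  have hcov : Pool.Agent.Helper69.VU.StCov :=
    Pool.Agent.Helper69.VU.covC Pool.Agent.Helper69.VU.covA Pool.Agent.Helper69.VU.covA2 Pool.Agent.Helper69.VU.covB
  have hpos : Pool.Agent.Helper69.VU.StPos :=
    Pool.Agent.Helper69.VU.posF Pool.Agent.Helper69.VU.posA Pool.Agent.Helper69.VU.posB (Pool.Agent.Helper69.VU.posC Pool.Agent.Helper69.VU.posB)
      Pool.Agent.Helper69.VU.posD Pool.Agent.Helper69.VU.posE
  have hmain : Pool.Agent.Helper69.VU.StMain := Pool.Agent.Helper69.VU.mainAsm hcov Pool.Agent.Helper69.VU.det hpos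
  have hstar : Pool.Agent.Helper69.VU.StStar := Pool.Agent.Helper69.VU.starAsm hmain Pool.Agent.Helper69.VU.proc
  have hbatchH : Pool.Agent.Helper69.VU.StBatchH :=
    Pool.Agent.Helper69.VU.batchHAsm hstar Pool.Agent.Helper69.VU.chern Pool.Agent.Helper69.VU.lll Pool.Agent.Helper69.VU.loc Pool.Agent.Helper69.VU.num
  have hcol : Pool.Agent.Helper69.VU.StColour := Pool.Agent.Helper69.VU.colour (Pool.Agent.Helper69.VU.batchG hbatchH)
  exact Pool.Agent.Helper69.VU.vuAsm hcol

end Pool.Agent.Helper60.VT
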