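import Pool.Agent.Helper60.VT.Graph
import Pool.Agent.Helper60.VT.Vu

/-!
# Bounded degrees of the `(k-1)`-sets: `τ ≤ (1/2 + ε) k ν`
-/

set_option autoImplicit false

open Finset

namespace Pool.Agent.Helper60.VT

open Pool.Agent.Helper37.FracTuza Pool.Agent.Helper5.FracCover

variable {n k : ℕ}

/-- the conflict graph on the edges -/
def cgraph (k : ℕ) (H : Finset (Finset (Fin n))) : SimpleGraph {e // e ∈ H} where
  Adj a b := Con k a.1 b.1
  symm := ⟨fun _ _ h => h.symm⟩
  loopless := ⟨fun _ h => h.1 rfl⟩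

instance (k : ℕ) (H : Finset (Finset (Fin n))) : DecidableRel (cgraph k H).Adj :=
  fun a b => inferInstanceAs (Decidable (Con k a.1 b.1))

theorem degree_eq (H : Finset (Finset (Fin n))) (a : {e // e ∈ H}) :
    (cgraph k H).degree a = (H.filter (fun f => Con k a.1 f)).card := by
  rw [← SimpleGraph.card_neighborFinset_eq_degree]
  rw [← card_image_of_injective _ Subtype.val_injective]
  congr 1
  ext f
  simp only [mem_image, SimpleGraph.mem_neighborFinset, mem_filter]
  constructor
  · rintro ⟨b, hb, rfl⟩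
    exact ⟨b.2, hb⟩
  · rintro ⟨hf, h⟩
    exact ⟨⟨f, hf⟩, h, rfl⟩

theorem codegree_eq (H : Finset (Finset (Fin n))) (a b : {e // e ∈ H}) :
    ((cgraph k H).neighborFinset a ∩ (cgraph k H).neighborFinset b).card =
      (H.filter (fun f => Con k a.1 f ∧ Con k b.1 f)).card := by
  rw [← card_image_of_injective _ Subtype.val_injective]
  congr 1
  ext f
  simp only [mem_image, mem_inter, SimpleGraph.mem_neighborFinset, mem_filter]
  constructor
  · rintro ⟨c, hc, rfl⟩
    exact ⟨c.2, hc⟩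
  · rintro ⟨hf, h⟩
    exact ⟨⟨f, hf⟩, h, rfl⟩

theorem exists_maximum (k : ℕ) (H : Finset (Finset (Fin n))) :
    ∃ M, IsPacking k H M ∧ ∀ M', IsPacking k H M' → M'.card ≤ M.card := by
  classical
  have hne : (H.powerset.filter (fun M => IsPacking k H M)).Nonempty :=
    ⟨∅, mem_filter.2 ⟨empty_mem_powerset _, empty_subset _, by simp⟩⟩
  obtain ⟨M, hM, hmax⟩ := exists_max_image _ (fun M => M.card) hne
  rw [mem_filter] at hM
  exact ⟨M, hM.2, fun M' hM' => hmax M' (mem_filter.2 ⟨mem_powerset.2 hM'.1, hM'⟩)⟩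

/-- the greedy bound -/
theorem card_le_greedy {H M : Finset (Finset (Fin n))} {B : ℕ}
    (hM : IsPacking k H M) (hmax : ∀ M', IsPacking k H M' → M'.card ≤ M.card)
    (hB : ∀ e ∈ H, (H.filter (fun f => Con k e f)).card + 1 ≤ B) : H.card ≤ B * M.card := by
  have hcov : H ⊆ M.biUnion (fun m => insert m (H.filter (fun f => Con k m f))) := by
    intro f hf
    rw [mem_biUnion]
    by_contra hcon
    push Not at hcon
    have hfM : f ∉ M := fun h => hcon f h (mem_insert_self _ _)
    have hnadj : ∀ m ∈ M, ¬ Con k m f := fun m hm h =>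
      hcon m hm (mem_insert_of_mem (mem_filter.2 ⟨hf, h⟩))
    have hp : IsPacking k H (insert f M) := by
      refine ⟨insert_subset hf hM.1, ?_⟩
      intro a ha b hb hab
      rcases mem_insert.1 ha with rfl | ha'
      · rcases mem_insert.1 hb with rfl | hb'
        · exact absurd rfl hab
        · by_contra hc
          exact hnadj b hb' ⟨hab.symm, by rw [inter_comm]; exact not_lt.1 hc⟩
      · rcases mem_insert.1 hb with rfl | hb'
        · by_contra hc
          exact hnadj a ha' ⟨hab, not_lt.1 hc⟩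
        · exact hM.2 a ha' b hb' hab
    have := hmax _ hp
    rw [card_insert_of_notMem hfM] at this
    omega
  refine (card_le_card hcov).trans (card_biUnion_le.trans ?_)
  refine (sum_le_card_nsmul _ _ B (fun m hm => ?_)).trans (by rw [smul_eq_mul, mul_comm])
  exact (card_insert_le _ _).trans (hB m (hM.1 hm))

/-- number of edges against the packing number -/
theorem card_le_asymp (ε : ℝ) (hε : 0 < ε) (D : ℕ) (hD1 : 1 ≤ D) :
    ∃ k₀ : ℕ, ∀ k : ℕ, k₀ ≤ k → ∀ (n : ℕ) (H M : Finset (Finset (Fin n))),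
      (∀ e ∈ H, e.card = k) →
      (∀ S : Finset (Fin n), S.card = k - 1 → (H.filter (fun e => S ⊆ e)).card ≤ D) →
      IsPacking k H M → (∀ M', IsPacking k H M' → M'.card ≤ M.card) →
      (H.card : ℝ) ≤ ((k : ℝ) + 1 + D + ε * k) * M.card := by
  have hDr : (1 : ℝ) ≤ D := by exact_mod_cast hD1
  set ι : ℝ := ε / (2 * D) with hι
  have hι0 : 0 < ι := by positivity
  set J : ℕ := ⌈1 / ι⌉₊ with hJ
  have hvu : ∀ j : ℕ, ∃ Δ₀ : ℕ, ∀ (V : Type) [Fintype V] [DecidableEq V] (G : SimpleGraph V)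
      [DecidableRel G.Adj], Δ₀ ≤ G.maxDegree →
        (∀ u v : V, u ≠ v →
          ((G.neighborFinset u ∩ G.neighborFinset v).card : ℝ) ≤
            (1 - (1 - min 1 (j * ι))) * (G.maxDegree : ℝ)) →
        ∃ c : ℕ, G.Colorable c ∧ (c : ℝ) ≤ (1 - (1 - min 1 (j * ι)) + ι) * (G.maxDegree : ℝ) := by
    intro j
    refine vu ι hι0 (1 - min 1 (j * ι)) ?_ ?_
    · have := min_le_left (1 : ℝ) (j * ι)
      linarith
    · have : 0 ≤ min (1 : ℝ) (j * ι) := le_min zero_le_one (by positivity)
      linarith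
  choose Δ₀ hΔ₀ using hvu
  refine ⟨max 3 ((range (J + 1)).sup Δ₀), fun k hk n H M hH hD hM hmax => ?_⟩
  have hk3 : 3 ≤ k := (le_max_left _ _).trans hk
  have hkD : ∀ j ≤ J, Δ₀ j ≤ k := fun j hj =>
    (le_sup (f := Δ₀) (mem_range.2 (Nat.lt_succ_of_le hj))).trans ((le_max_right _ _).trans hk)
  have hk0 : (0 : ℝ) ≤ k := Nat.cast_nonneg k
  have hM0 : (0 : ℝ) ≤ M.card := Nat.cast_nonneg _
  by_cases hsmall : (cgraph k H).maxDegree < k + 1 + D
  · have h1 : H.card ≤ (k + 1 + D) * M.card := by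
      refine card_le_greedy hM hmax (fun e he => ?_)
      have h2 := (cgraph k H).degree_le_maxDegree ⟨e, he⟩
      rw [degree_eq] at h2
      simp only at h2
      omega
    have h2 : (H.card : ℝ) ≤ ((k : ℝ) + 1 + D) * M.card := by exact_mod_cast h1
    have h3 : 0 ≤ ε * k * M.card := by positivity
    nlinarith
  · push Not at hsmall
    have hΔ : (0 : ℝ) < (cgraph k H).maxDegree := by
      have : 0 < (cgraph k H).maxDegree := by omega
      exact_mod_cast this
    have hΔk : ((cgraph k H).maxDegree : ℝ) ≤ k * D := by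
      have : (cgraph k H).maxDegree ≤ k * D := by
        apply SimpleGraph.maxDegree_le_of_forall_degree_le
        intro a
        rw [degree_eq]
        exact deg_le (by omega) hH hD a.2
      exact_mod_cast this
    set r : ℝ := ((k : ℝ) + 1 + D) / (cgraph k H).maxDegree with hr
    have hr0 : 0 ≤ r := by positivity
    have hr1 : r ≤ 1 := by
      rw [hr, div_le_one hΔ]
      exact_mod_cast hsmall
    set j : ℕ := ⌈r / ι⌉₊ with hj
    have hjJ : j ≤ J := Nat.ceil_mono (div_le_div_of_nonneg_right hr1 hι0.le)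
    have hj1 : r ≤ min 1 (j * ι) := by
      refine le_min hr1 ?_
      have := Nat.le_ceil (r / ι)
      rw [div_le_iff₀ hι0] at this
      exact this
    have hj2 : min 1 ((j : ℝ) * ι) ≤ r + ι := by
      refine (min_le_right _ _).trans ?_
      have := (Nat.ceil_lt_add_one (div_nonneg hr0 hι0.le)).le
      calc (j : ℝ) * ι ≤ (r / ι + 1) * ι := mul_le_mul_of_nonneg_right this hι0.le
        _ = r + ι := by field_simp
    obtain ⟨c, hc, hc2⟩ := hΔ₀ j {e // e ∈ H} (cgraph k H)
      ((hkD j hjJ).trans (by omega)) (by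
        intro u v huv
        rw [codegree_eq]
        have h1 := codeg_le hk3 hH hD u.2 v.2 (fun h => huv (Subtype.ext h))
        have h2 : ((H.filter (fun f => Con k u.1 f ∧ Con k v.1 f)).card : ℝ) ≤
            (k : ℝ) + 1 + D := by exact_mod_cast h1
        refine h2.trans ?_
        have h3 : (k : ℝ) + 1 + D = r * (cgraph k H).maxDegree := by
          rw [hr]; field_simp
        rw [h3]
        refine mul_le_mul_of_nonneg_right ?_ hΔ.le
        linarith)
    have h1 : H.card ≤ c * M.card := by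
      refine card_le_of_colorable (k := k) (cgraph k H) ?_ hc hmax
      intro a b hab hnadj
      by_contra hcon
      exact hnadj ⟨fun h => hab (Subtype.ext h), not_lt.1 hcon⟩
    have h2 : (H.card : ℝ) ≤ c * M.card := by exact_mod_cast h1
    refine h2.trans (mul_le_mul_of_nonneg_right ?_ hM0)
    refine hc2.trans ?_
    have h3 : (1 - (1 - min 1 ((j : ℝ) * ι)) + ι) * ((cgraph k H).maxDegree : ℝ) ≤
        (r + 2 * ι) * (cgraph k H).maxDegree := mul_le_mul_of_nonneg_right (by linarith) hΔ.le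
    refine h3.trans ?_
    have h4 : r * (cgraph k H).maxDegree = (k : ℝ) + 1 + D := by rw [hr]; field_simp
    have h5 : 2 * ι * (cgraph k H).maxDegree ≤ ε * k := by
      calc 2 * ι * ((cgraph k H).maxDegree : ℝ) ≤ 2 * ι * (k * D) :=
            mul_le_mul_of_nonneg_left hΔk (by positivity)
        _ = ε * k := by rw [hι]; field_simp
    nlinarith

/-- the final bound -/
theorem bounded (ε : ℝ) (hε : 0 < ε) (D : ℕ) :
    ∃ k₀ : ℕ, ∀ k : ℕ, k₀ ≤ k → ∀ (n : ℕ) (H : Finset (Finset (Fin n))),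
      (∀ e ∈ H, e.card = k) →
      (∀ S : Finset (Fin n), S.card = k - 1 → (H.filter (fun e => S ⊆ e)).card ≤ D) →
      ∃ M C : Finset (Finset (Fin n)), IsPacking k H M ∧ IsCover k H C ∧
        (C.card : ℝ) ≤ (1 / 2 + ε) * k * M.card := by
  obtain ⟨k₀, hk₀⟩ := card_le_asymp ε hε (max D 1) (le_max_right _ _)
  refine ⟨max k₀ ⌈(2 + (max D 1 : ℕ)) / ε⌉₊, fun k hk n H hH hD => ?_⟩
  obtain ⟨M, hM, hmax⟩ := exists_maximum k H
  have h1 := hk₀ k ((le_max_left _ _).trans hk) n H M hH
    (fun S hS => (hD S hS).trans (le_max_left _ _)) hM hmax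
  obtain ⟨C, P, hC, hP, hCP⟩ := exists_cover_half k H.card H rfl hH
  refine ⟨M, C, hM, hC, ?_⟩
  have h2 : (2 + ((max D 1 : ℕ) : ℝ)) / ε ≤ k := by
    refine (Nat.le_ceil _).trans ?_
    exact_mod_cast (le_max_right _ _).trans hk
  rw [div_le_iff₀ hε] at h2
  have h3 : (2 : ℝ) * C.card ≤ H.card + M.card := by
    have : 2 * C.card ≤ H.card + M.card := hCP.trans (Nat.add_le_add_left (hmax P hP) _)
    exact_mod_cast this
  have hM0 : (0 : ℝ) ≤ M.card := Nat.cast_nonneg _
  have h4 : (2 : ℝ) * C.card ≤ ((k : ℝ) + 2 + (max D 1 : ℕ) + ε * k) * M.card := by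
    nlinarith
  have h5 : ((k : ℝ) + 2 + (max D 1 : ℕ) + ε * k) * M.card ≤
      (2 * ((1 / 2 + ε) * k)) * M.card :=
    mul_le_mul_of_nonneg_right (by nlinarith) hM0
  linarith

end Pool.Agent.Helper60.VT
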